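import Mathlib

set_option autoImplicit false
set_option linter.unusedSectionVars false

namespace Pool.Agent.Y45.HM

theorem jac_int : IsJacobsonRing ℤ := by
  rw [isJacobsonRing_iff_prime_eq]
  intro P hP
  by_cases h : P = ⊥
  · subst h
    rw [eq_bot_iff]
    intro x hx
    rw [Ideal.mem_jacobson_bot] at hx
    have h1 := hx x
    rw [Int.isUnit_iff] at h1
    rw [Ideal.mem_bot]
    rcases h1 with h1 | h1
    · have : x * x = 0 := by linarith
      exact mul_self_eq_zero.1 this
    · exfalso
      nlinarith [mul_self_nonneg x]
  · have : P.IsMaximal := IsPrime.to_maximal_ideal h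
    exact Ideal.jacobson_eq_self_of_isMaximal

theorem finite_of_finiteType_field (K : Type) [Field K] [Algebra.FiniteType ℤ K] : Finite K := by
  have hJ : IsJacobsonRing ℤ := jac_int
  have h1 : Module.Finite ℤ K := finite_of_finite_type_of_isJacobsonRing ℤ K
  have h2 : Algebra.IsIntegral ℤ K := Algebra.IsIntegral.of_finite ℤ K
  have h3 : ¬ Function.Injective (algebraMap ℤ K) := by
    intro hinj
    exact Int.not_isField ((Algebra.IsIntegral.isField_iff_isField hinj).2 (Field.toIsField K))
  rw [injective_iff_map_eq_zero] at h3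
  push Not at h3
  obtain ⟨n, hn, hn0⟩ := h3
  refine Module.finite_of_fg_torsion K ?_
  intro x
  refine ⟨⟨n, mem_nonZeroDivisors_of_ne_zero hn0⟩, ?_⟩
  show n • x = 0
  rw [zsmul_eq_mul]
  have : ((n : ℤ) : K) = 0 := by simpa using hn
  rw [this, zero_mul]

theorem finite_of_isField (S : Type) [CommRing S] (hF : IsField S) [Algebra.FiniteType ℤ S] :
    Finite S := by
  let _ : Field S := hF.toField
  exact finite_of_finiteType_field S

theorem ft_change (S : Type) [CommRing S] (a : Algebra ℤ S) (h : @Algebra.FiniteType ℤ S _ _ a) :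
    @Algebra.FiniteType ℤ S _ _ (Ring.toIntAlgebra S) := by
  have h1 : a = Ring.toIntAlgebra S := Subsingleton.elim _ _
  rw [h1] at h
  exact h

theorem finite_of_dvd_pow (J : Type) [CommRing J] [IsDomain J] [Algebra.FiniteType ℤ J] (τ : J)
    (hτ : τ ≠ 0) (hdiv : ∀ f : J, f ≠ 0 → ∃ k : ℕ, f ∣ τ ^ k) : Finite J := by
  have hle : Submonoid.powers τ ≤ nonZeroDivisors J := powers_le_nonZeroDivisors_of_noZeroDivisors hτ
  have hdom : IsDomain (Localization.Away τ) := IsLocalization.isDomain_localization hle
  have hinj : Function.Injective (algebraMap J (Localization.Away τ)) :=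
    IsLocalization.injective _ hle
  have hunit : IsUnit (algebraMap J (Localization.Away τ) τ) :=
    IsLocalization.map_units (Localization.Away τ)
      (⟨τ, Submonoid.mem_powers τ⟩ : Submonoid.powers τ)
  have hF : IsField (Localization.Away τ) := by
    refine ⟨exists_pair_ne _, mul_comm, ?_⟩
    intro x hx
    obtain ⟨⟨a, s⟩, has⟩ := IsLocalization.surj (Submonoid.powers τ) x
    have ha : a ≠ 0 := by
      rintro rfl
      rw [map_zero] at has
      rcases mul_eq_zero.1 has with h | h
      · exact hx h
      · have h4 := IsLocalization.map_units (Localization.Away τ) s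
        rw [h] at h4
        exact not_isUnit_zero h4
    obtain ⟨k, b, hb⟩ := hdiv a ha
    have h1 : IsUnit (algebraMap J (Localization.Away τ) (a * b)) := by
      rw [← hb, map_pow]
      exact hunit.pow k
    rw [map_mul, IsUnit.mul_iff] at h1
    have h2 := h1.1
    have h3 : IsUnit (x * algebraMap J (Localization.Away τ) s) := by
      have has' : x * algebraMap J (Localization.Away τ) s = algebraMap J (Localization.Away τ) a := has
      rw [has']; exact h2
    rw [IsUnit.mul_iff] at h3
    obtain ⟨u, hu⟩ := h3.1
    exact ⟨↑u⁻¹, by rw [← hu, Units.mul_inv]⟩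
  have hft : Algebra.FiniteType ℤ (Localization.Away τ) :=
    Algebra.FiniteType.trans (S := J) inferInstance inferInstance
  have hft' := ft_change _ _ hft
  have : Finite (Localization.Away τ) := @finite_of_isField (Localization.Away τ) _ hF hft'
  exact Finite.of_injective _ hinj

end Pool.Agent.Y45.HM
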