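import Pool.Agent.Y45.HM.Noe

set_option autoImplicit false
set_option linter.unusedSectionVars false

namespace Pool.Agent.Y45.HM

section GenFree

variable {J Γ A : Type} [CommRing J] [Group Γ] [AddCommGroup A] [Module J A]
  [DistribMulAction Γ A] [SMulCommClass Γ J A]

/-- generic freeness for finitely generated modules over (noetherian domain, polycyclic group) -/
theorem gen_free [IsDomain J] [IsNoetherianRing J] : ∀ (s : ℕ) (K : Subgroup Γ),
    Helper294.HallC.Ser s K → ∀ X Y : Submodule J A, St K X → FGS K X Y →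
    ∃ τ : J, τ ≠ 0 ∧ GF τ X Y := by
  classical
  intro s
  induction s with
  | zero =>
    intro K hK X Y _ hF
    have hK' : K = ⊥ := hK
    subst hK'
    obtain ⟨F, hF⟩ := hF
    rw [span_bot] at hF
    rw [hF]
    exact GF.fin X F
  | succ s ih =>
    rintro K ⟨R, t, hRK, ht, hn, hc, hs⟩ X Y hX ⟨F, hF⟩
    let N0 : Submodule J A := Submodule.span J {a : A | ∃ g ∈ R, ∃ x ∈ (F : Set A), a = g • x}
    let N : Submodule J A := X ⊔ N0
    have hXt : tr t X ≤ X := (hX.tr_eq ht).le
    have hXN : X ≤ N := le_sup_left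
    have hNR : St R N := (hX.mono hRK).sup (span_St R _)
    have hNoe : NoeS R X N := FGS.noe s R hs X N (hX.mono hRK) ⟨F, rfl⟩
    have hFG : ∀ L : Submodule J A, X ≤ L → L ≤ N → FGS R L N := by
      intro L h1 h2
      refine ⟨F, le_antisymm (sup_le_sup_right h1 _) (sup_le h2 le_sup_right)⟩
    have hNY : N ≤ Y := by
      rw [hF]
      refine sup_le_sup_left (Submodule.span_mono ?_) _
      rintro a ⟨g, hg, x, hx, rfl⟩
      exact ⟨g, hRK hg, x, hx, rfl⟩
    have hYK : St K Y := by
      rw [hF]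
      exact hX.sup (span_St K _)
    have hSY : ∀ n, Sq t X N n ≤ Y := by
      intro n
      induction n with
      | zero => exact hXN.trans hNY
      | succ n ihn =>
        refine sup_le ihn ?_
        rw [← hYK.tr_eq (K.pow_mem ht n)]
        exact tr_mono _ hNY
    have hcov : ∀ y ∈ Y, ∃ K' n : ℕ, t ^ K' • y ∈ Sq t X N n := by
      intro y hy
      rw [hF] at hy
      refine Sq_cover (N := N) hc hXt (F : Set A) ?_ y hy
      intro g hg a ha
      exact Submodule.mem_sup_right (Submodule.subset_span ⟨g, hg, a, ha, rfl⟩)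
    -- the modules of leading coefficients
    let L : ℕ → Submodule J A := fun n => N ⊓ tr (t ^ n)⁻¹ (Sq t X N n)
    have hL : ∀ n m, m ∈ L n ↔ m ∈ N ∧ t ^ n • m ∈ Sq t X N n := by
      intro n m
      rw [Submodule.mem_inf, mem_tr, inv_inv]
    have hLmono : Monotone L := by
      refine monotone_nat_of_le_succ fun n m hm => ?_
      rw [hL] at hm ⊢
      refine ⟨hm.1, ?_⟩
      rw [pow_succ', mul_smul]
      exact Sq_t t X N hXt n hm.2
    have hXL : ∀ n, X ≤ L n := by
      intro n x hx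
      rw [hL]
      exact ⟨hXN hx, le_Sq t X N n (hX _ (K.pow_mem ht n) x hx)⟩
    have hLN : ∀ n, L n ≤ N := fun n => inf_le_left
    have hLR : ∀ n, St R (L n) := fun n =>
      hNR.inf ((Sq_St hn (hX.mono hRK) hNR n).tr_inv (norm_pow hn n))
    obtain ⟨n0, hn0⟩ := hNoe L hLmono (fun n => ⟨hXL n, hLN n, hLR n⟩)
    have hIH : ∀ n, ∃ τ : J, τ ≠ 0 ∧ GF τ (L n) N := fun n =>
      ih R hs (L n) N (hLR n) (hFG _ (hXL n) (hLN n))
    choose τs hτs hGFs using hIH
    let τ1 : J := ∏ i ∈ Finset.range (n0 + 1), τs i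
    have hτ1 : τ1 ≠ 0 := Finset.prod_ne_zero_iff.2 fun i _ => hτs i
    have hG1 : ∀ n, GF τ1 (L n) N := by
      intro n
      by_cases h : n ≤ n0
      · exact (hGFs n).dvd (Finset.dvd_prod_of_mem τs (Finset.mem_range.2 (by omega)))
      · rw [hn0 n (by omega)]
        exact (hGFs n0).dvd (Finset.dvd_prod_of_mem τs (Finset.mem_range.2 (by omega)))
    have hG2 : ∀ n, GF τ1 (Sq t X N n) (Sq t X N (n + 1)) := by
      intro n
      rw [Sq_succ]
      refine (hG1 n).trans_tr (t ^ n) ?_
      intro m hm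
      rw [hL]
      exact ⟨fun h => h.2, fun h => ⟨hm, h⟩⟩
    -- the nonnegative part
    let Bp : Submodule J A := ⨆ n, Sq t X N n
    have hG3 : GF τ1 X Bp := GF.chain (Sq t X N) (fun n => Sq_mono t X N (Nat.le_succ n)) hG2
    have hBmem : ∀ y, y ∈ Bp ↔ ∃ n, y ∈ Sq t X N n := fun y =>
      Submodule.mem_iSup_of_directed _ (Sq_mono t X N).directed_le
    have hBt : tr t Bp ≤ Bp := by
      intro y hy
      rw [mem_tr, hBmem] at hy
      obtain ⟨n, hn'⟩ := hy
      rw [hBmem]
      refine ⟨n + 1, ?_⟩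
      have := Sq_t t X N hXt n hn'
      rwa [smul_inv_smul] at this
    have hNB : N ≤ Bp := by
      intro y hy
      rw [hBmem]
      refine ⟨1, Submodule.mem_sup_right ?_⟩
      rw [pow_zero, tr_one]
      exact hy
    have hXB : X ≤ Bp := hXN.trans hNB
    have hBsplit : Bp = tr t Bp ⊔ N := by
      apply le_antisymm
      · intro y hy
        rw [hBmem] at hy
        obtain ⟨n, hy⟩ := hy
        have key : ∀ n, Sq t X N n ≤ tr t Bp ⊔ N := by
          intro n
          induction n with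
          | zero => exact hXN.trans le_sup_right
          | succ n ihn =>
            refine sup_le ihn ?_
            rcases n with _ | n
            · rw [pow_zero, tr_one]; exact le_sup_right
            · refine le_trans ?_ le_sup_left
              rw [pow_succ', ← tr_tr]
              apply tr_mono
              intro z hz
              rw [hBmem]
              exact ⟨n + 1, Submodule.mem_sup_right hz⟩
        exact key n hy
      · exact sup_le hBt hNB
    have hBR : St R Bp := by
      intro g hg y hy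
      rw [hBmem] at hy ⊢
      obtain ⟨n, hy⟩ := hy
      exact ⟨n, Sq_St hn (hX.mono hRK) hNR n g hg y hy⟩
    have hBY : Bp ≤ Y := iSup_le hSY
    -- the negative part
    let L' : Submodule J A := N ⊓ tr t Bp
    have hL'R : St R L' := hNR.inf (hBR.tr hn)
    have hXL' : X ≤ L' := by
      refine le_inf hXN ?_
      rw [← hX.tr_eq ht]
      exact tr_mono t hXB
    obtain ⟨τ2, hτ2, hG4⟩ := ih R hs L' N hL'R (hFG L' hXL' inf_le_left)
    have hG5 : ∀ n : ℕ, tr (t ^ (n + 1))⁻¹ Bp = tr (t ^ n)⁻¹ Bp ⊔ tr (t ^ (n + 1))⁻¹ N := by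
      intro n
      conv_lhs => rw [hBsplit]
      rw [tr_sup, tr_tr]
      congr 2
      rw [pow_succ']
      group
    have hG6 : ∀ n : ℕ, GF τ2 (tr (t ^ n)⁻¹ Bp) (tr (t ^ (n + 1))⁻¹ Bp) := by
      intro n
      rw [hG5 n]
      refine hG4.trans_tr (t ^ (n + 1))⁻¹ ?_
      intro m hm
      rw [Submodule.mem_inf, mem_tr, mem_tr, inv_inv, ← mul_smul]
      have e : t ^ n * (t ^ (n + 1))⁻¹ = t⁻¹ := by
        rw [pow_succ']
        group
      rw [e]
      exact ⟨fun h => h.2, fun h => ⟨hm, h⟩⟩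
    have hG7 : GF τ2 (tr (t ^ 0)⁻¹ Bp) (⨆ n : ℕ, tr (t ^ n)⁻¹ Bp) := by
      refine GF.chain (fun n : ℕ => tr (t ^ n)⁻¹ Bp) (fun n => ?_) hG6
      show tr (t ^ n)⁻¹ Bp ≤ tr (t ^ (n + 1))⁻¹ Bp
      rw [hG5 n]
      exact le_sup_left
    have hY : (⨆ n : ℕ, tr (t ^ n)⁻¹ Bp) = Y := by
      apply le_antisymm
      · refine iSup_le fun n => ?_
        rw [← hYK.tr_eq (K.inv_mem (K.pow_mem ht n))]
        exact tr_mono _ hBY
      · intro y hy
        obtain ⟨k, n, hkn⟩ := hcov y hy
        refine Submodule.mem_iSup_of_mem k ?_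
        rw [mem_tr, inv_inv, hBmem]
        exact ⟨n, hkn⟩
    rw [hY, pow_zero, inv_one, tr_one] at hG7
    exact ⟨τ1 * τ2, mul_ne_zero hτ1 hτ2, GF.trans hXB hBY (hG3.dvd (dvd_mul_right _ _))
      (hG7.dvd (dvd_mul_left _ _))⟩

end GenFree

end Pool.Agent.Y45.HM
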