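import Pool.Agent.Y45.HM.Mono
import Pool.Agent.H53R2.UB2

set_option autoImplicit false
set_option linter.unusedSectionVars false

namespace Pool.Agent.Y45.HM

open H53R2 Helper294 Helper294.HallC LaurentPolynomial
open scoped commutatorElement

theorem noe_of_maxN {G Q E : Type} [Group G] [Group Q] [AddCommGroup E] [DistribMulAction Q E]
    {p : G →* Q} (hp : Function.Surjective p) {X Y : Subgroup G} [Y.Normal] (s : SecMod p X Y E)
    (h : MaxN G) : Noe Q E := by
  rw [K_maxN_iff] at h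
  intro f hf hfs
  let F : ℕ → Subgroup G := fun n =>
    { carrier := {g | ∃ e ∈ f n, s.rep g e}
      one_mem' := ⟨0, zero_mem _, s.rep_one⟩
      mul_mem' := by
        rintro a b ⟨e, he, h1⟩ ⟨f, hf, h2⟩
        exact ⟨e + f, add_mem he hf, SecMod.rep_mul h1 h2⟩
      inv_mem' := by
        rintro a ⟨e, he, h1⟩
        exact ⟨-e, neg_mem he, SecMod.rep_inv h1⟩ }
  obtain ⟨n, hn⟩ := h F (by
    rintro i j hij g ⟨e, he, hg⟩
    exact ⟨e, hf hij he, hg⟩) (by
    intro n
    refine ⟨?_⟩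
    rintro g ⟨e, he, hg⟩ x
    exact ⟨p x • e, hfs n (p x) e he, SecMod.rep_conj hg x⟩)
  refine ⟨n, fun m hm => le_antisymm ?_ (hf hm)⟩
  intro e he
  obtain ⟨g, hg⟩ := s.exists_rep e
  have h1 : g ∈ F m := ⟨e, he, hg⟩
  rw [hn m hm] at h1
  obtain ⟨e', he', hg'⟩ := h1
  rw [SecMod.rep_unique hg hg']
  exact he'

theorem unip_tors {Q E : Type} [Group Q] [AddCommGroup E] [DistribMulAction Q E] (q : ℕ)
    (hq : ∀ e : E, q • e = 0) (w : Q) (k : ℕ) : ∀ e ∈ Zn E ({w} : Set Q) k, w ^ (q ^ k) • e = e := by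
  induction k with
  | zero =>
    intro e he
    rw [mem_Zn_zero] at he
    rw [he, smul_zero]
  | succ k ih =>
    intro e he
    have hst : ∀ x ∈ Zn E ({w} : Set Q) k, w • x ∈ Zn E ({w} : Set Q) k := fun x hx =>
      (Zn_stable_self k (Set.mem_singleton w) hx).1
    have h1 : w • e - e ∈ Zn E ({w} : Set Q) k := (mem_Zn_succ.1 he) w (Set.mem_singleton w)
    have h2 : ∀ j : ℕ, w ^ j • e - e ∈ Zn E ({w} : Set Q) k := by
      intro j
      induction j with
      | zero => rw [pow_zero, one_smul, sub_self]; exact zero_mem _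
      | succ j ihj =>
        have h3 : w ^ (j + 1) • e - e = w • (w ^ j • e - e) + (w • e - e) := by
          rw [pow_succ', mul_smul, smul_sub]; abel
        rw [h3]
        exact add_mem (hst _ ihj) h1
    set v := w ^ (q ^ k) with hv
    set c := v • e - e with hc
    have hcm : c ∈ Zn E ({w} : Set Q) k := h2 _
    have hvc : v • c = c := ih c hcm
    have h4 : ∀ j : ℕ, v ^ j • e = e + j • c := by
      intro j
      induction j with
      | zero => rw [pow_zero, one_smul, zero_smul, add_zero]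
      | succ j ihj =>
        rw [pow_succ', mul_smul, ihj, smul_add, smul_comm v j c, hvc, succ_nsmul]
        have : v • e = e + c := by rw [hc]; abel
        rw [this]; abel
    have h5 := h4 q
    rw [hq, add_zero, hv, ← pow_mul, ← pow_succ] at h5
    exact h5

section Layer

variable {G : Type} [Group G]

theorem comm_conj (t y m : G) (i : ℤ) :
    ⁅y, t ^ i * m * t ^ (-i)⁆ = t ^ i * ⁅t ^ (-i) * y * t ^ i, m⁆ * (t ^ i)⁻¹ := by
  rw [commutatorElement_def, commutatorElement_def, zpow_neg]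
  group

/-- one layer of the upper central series of `N` controls the next one -/
theorem layer_pol (u : UI) (hG : u.Grp G) (N : Subgroup G) [N.Normal] (X0 X1 X2 : Subgroup G)
    [X0.Normal] [X1.Normal] [X2.Normal] (h2N : X2 ≤ N)
    (hX1 : ∀ x ∈ N, (∀ n ∈ N, ⁅x, n⁆ ∈ X0) → x ∈ X1)
    (hX2 : ∀ x ∈ X2, ∀ n ∈ N, ⁅x, n⁆ ∈ X1)
    {E1 E2 : Type} [AddCommGroup E1] [DistribMulAction (G ⧸ N) E1]
    [AddCommGroup E2] [DistribMulAction (G ⧸ N) E2]
    (s1 : SecMod (QuotientGroup.mk' N) X0 X1 E1) (s2 : SecMod (QuotientGroup.mk' N) X1 X2 E2) :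
    (∀ z : G ⧸ N, (∀ f : E1, z • f = f) → ∀ e : E2, ev E2 z (H_pol u) e = 0) ∧
    (∀ q : ℕ, (∀ f : E1, q • f = 0) → ∀ e : E2, q • e = 0) := by
  set p := QuotientGroup.mk' N with hp
  have hp1 : ∀ n ∈ N, p n = 1 := fun n hn => (QuotientGroup.eq_one_iff n).2 hn
  -- the commutator pairing
  have hB : ∀ m ∈ N, ∃ B : ↥X2 →* Multiplicative E1,
      ∀ y : ↥X2, s1.rep ⁅(y : G), m⁆ (B y).toAdd := by
    intro m hm
    refine ⟨MonoidHom.mk' (fun y : ↥X2 => s1.π ⟨⁅(y : G), m⁆, hX2 y y.2 m hm⟩) ?_, ?_⟩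
    · intro y y'
      have h1 : s1.rep ⁅(y : G), m⁆ (s1.π ⟨⁅(y : G), m⁆, hX2 y y.2 m hm⟩).toAdd := ⟨_, rfl⟩
      have h2 : s1.rep ⁅(y' : G), m⁆ (s1.π ⟨⁅(y' : G), m⁆, hX2 y' y'.2 m hm⟩).toAdd := ⟨_, rfl⟩
      have h3 := SecMod.rep_mul (SecMod.rep_conj h2 (y : G)) h1
      rw [hp1 y (h2N y.2), one_smul] at h3
      have e1 : (y : G) * ⁅(y' : G), m⁆ * (y : G)⁻¹ * ⁅(y : G), m⁆ = ⁅((y * y' : ↥X2) : G), m⁆ := by
        rw [commutatorElement_def, commutatorElement_def, commutatorElement_def, Subgroup.coe_mul]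
        group
      rw [e1] at h3
      obtain ⟨h4, h5⟩ := h3
      have h6 : s1.π ⟨⁅((y * y' : ↥X2) : G), m⁆, hX2 _ (y * y').2 m hm⟩
          = s1.π ⟨⁅((y * y' : ↥X2) : G), m⁆, h4⟩ := rfl
      rw [h6, h5, add_comm, ofAdd_add]
      rfl
    · intro y
      exact ⟨_, rfl⟩
  refine ⟨?_, ?_⟩
  · intro z hz e
    obtain ⟨t, ht⟩ := QuotientGroup.mk'_surjective N z⁻¹
    have hpt : ∀ i : ℤ, p (t ^ (-i)) = z ^ i := by
      intro i
      rw [map_zpow, hp, ht, inv_zpow, zpow_neg, inv_inv]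
    have hzz : ∀ (i : ℤ) (f : E1), z ^ i • f = f := by
      intro i f
      have : z ∈ MulAction.stabilizer (G ⧸ N) f := hz f
      exact Subgroup.zpow_mem _ this i
    have hptt : ∀ (i : ℤ) (f : E1), p (t ^ i) • f = f := by
      intro i f
      have := hpt (-i)
      rw [neg_neg] at this
      rw [this]; exact hzz _ f
    obtain ⟨y, hye⟩ := s2.exists_rep e
    have hyX : y ∈ X2 := hye.1
    have hn2 : X2.Normal := inferInstance
    have hconj : ∀ i : ℤ, t ^ (-i) * y * t ^ i ∈ X2 := by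
      intro i
      have := hn2.conj_mem y hyX (t ^ (-i))
      rwa [← zpow_neg, neg_neg] at this
    let Y : Fin u.n → ↥X2 := fun k => ⟨t ^ (-u.i k) * y * t ^ (u.i k), hconj _⟩
    let W : ↥X2 := ⟨y, hyX⟩ * ((List.ofFn fun k => Y k ^ u.e k).prod)⁻¹
    have hW : (W : G) ∈ X1 := by
      apply hX1 _ (h2N W.2)
      intro m hm
      obtain ⟨B, hBr⟩ := hB m hm
      -- the word acts trivially
      have hword : ∀ (γ : FreeGroup (Fin 3)) (f : E1), p (FreeGroup.lift ![y, m, t] γ) • f = f := by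
        intro γ f
        have h1 : (p.comp (FreeGroup.lift ![y, m, t])).range ≤ MulAction.stabilizer (G ⧸ N) f := by
          rw [MonoidHom.range_eq_map, ← FreeGroup.closure_range_of, MonoidHom.map_closure,
            Subgroup.closure_le]
          rintro _ ⟨_, ⟨i, rfl⟩, rfl⟩
          show (p.comp (FreeGroup.lift ![y, m, t])) (FreeGroup.of i) • f = f
          rw [MonoidHom.comp_apply, FreeGroup.lift_apply_of]
          fin_cases i
          · show p y • f = f
            rw [hp1 y (h2N hyX), one_smul]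
          · show p m • f = f
            rw [hp1 m hm, one_smul]
          · show p t • f = f
            have := hptt 1 f
            rwa [zpow_one] at this
        exact h1 ⟨γ, rfl⟩
      have h1 : s1.rep ⁅y, m⁆ (B ⟨y, hyX⟩).toAdd := hBr ⟨y, hyX⟩
      rw [hG y m t] at h1
      have h2 : ∀ k : Fin u.n, s1.rep (FreeGroup.lift ![y, m, t] (u.w k) *
          ⁅y, t ^ (u.i k) * m * t ^ (-(u.i k))⁆ ^ (u.e k) *
          (FreeGroup.lift ![y, m, t] (u.w k))⁻¹) (u.e k • (B (Y k)).toAdd) := by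
        intro k
        have h3 : s1.rep ⁅t ^ (-u.i k) * y * t ^ (u.i k), m⁆ (B (Y k)).toAdd := hBr (Y k)
        have h4 := SecMod.rep_conj h3 (t ^ (u.i k))
        rw [← comm_conj, hptt] at h4
        have h5 := SecMod.rep_conj (SecMod.rep_zpow h4 (u.e k)) (FreeGroup.lift ![y, m, t] (u.w k))
        rw [hword] at h5
        exact h5
      have h3 := SecMod.rep_unique h1 (SecMod.rep_prod _ _ h2)
      have h4 : B W = 1 := by
        have h5 : (B W).toAdd = 0 := by
          rw [map_mul, map_inv, map_list_prod, List.map_ofFn, List.prod_ofFn, toAdd_mul, toAdd_inv,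
            toAdd_prod, h3]
          simp only [Function.comp_apply, map_zpow, toAdd_zpow]
          exact add_neg_cancel _
        exact h5
      obtain ⟨h5, h6⟩ := hBr W
      rw [h4] at h6
      exact (s1.ker _).1 h6
    -- the representative of W
    have h1 : s2.rep (W : G) (e + -(∑ k : Fin u.n, u.e k • z ^ (u.i k) • e)) := by
      have e1 : (W : G) = y * ((List.ofFn fun k => (t ^ (-u.i k) * y * t ^ (u.i k)) ^ u.e k).prod)⁻¹ := by
        show ((⟨y, hyX⟩ * ((List.ofFn fun k => Y k ^ u.e k).prod)⁻¹ : ↥X2) : G) = _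
        rw [Subgroup.coe_mul, Subgroup.coe_inv, ← Subgroup.coe_subtype, map_list_prod, List.map_ofFn]
        rfl
      rw [e1]
      refine SecMod.rep_mul hye (SecMod.rep_inv (SecMod.rep_prod _ _ fun k => ?_))
      have h2 := SecMod.rep_conj hye (t ^ (-u.i k))
      rw [← zpow_neg, neg_neg, hpt] at h2
      exact SecMod.rep_zpow h2 _
    have h2 := SecMod.rep_mem_zero h1 hW
    rw [H_pol_ev, sub_eq_add_neg]
    exact h2
  · intro q hq e
    obtain ⟨y, hye⟩ := s2.exists_rep e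
    have hyX : y ∈ X2 := hye.1
    have hW : y ^ q ∈ X1 := by
      apply hX1 _ (N.pow_mem (h2N hyX) q)
      intro m hm
      obtain ⟨B, hBr⟩ := hB m hm
      obtain ⟨h5, h6⟩ := hBr (⟨y, hyX⟩ ^ q)
      have h7 : B (⟨y, hyX⟩ ^ q) = 1 := by
        rw [map_pow]
        have : (B ⟨y, hyX⟩ ^ q).toAdd = 0 := by rw [toAdd_pow]; exact hq _
        exact this
      rw [h7] at h6
      exact (s1.ker _).1 h6
    have h1 := SecMod.rep_zpow hye (q : ℤ)
    rw [zpow_natCast, natCast_zsmul] at h1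
    exact SecMod.rep_mem_zero h1 hW

/-- if a layer is finite then so is the next one -/
theorem layer_finite (u : UI) (hG : u.Grp G) (hmax : MaxN G) (N : Subgroup G) [N.Normal]
    [Group.FG (G ⧸ N)] [Group.IsNilpotent (G ⧸ N)] (X0 X1 X2 : Subgroup G)
    [X0.Normal] [X1.Normal] [X2.Normal] (h2N : X2 ≤ N)
    (hX1 : ∀ x ∈ N, (∀ n ∈ N, ⁅x, n⁆ ∈ X0) → x ∈ X1)
    (hX2 : ∀ x ∈ X2, ∀ n ∈ N, ⁅x, n⁆ ∈ X1)
    {E1 E2 : Type} [AddCommGroup E1] [DistribMulAction (G ⧸ N) E1]
    [AddCommGroup E2] [DistribMulAction (G ⧸ N) E2]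
    (s1 : SecMod (QuotientGroup.mk' N) X0 X1 E1) (s2 : SecMod (QuotientGroup.mk' N) X1 X2 E2)
    [Finite E1] : Finite E2 := by
  classical
  obtain ⟨hpol, hexp⟩ := layer_pol u hG N X0 X1 X2 h2N hX1 hX2 s1 s2
  obtain ⟨q, hq0, hq⟩ : ∃ q : ℕ, 0 < q ∧ ∀ e : E2, q • e = 0 :=
    ⟨Nat.card E1, Nat.card_pos, hexp _ fun f => card_nsmul_eq_zero'⟩
  obtain ⟨n, hn0, hn⟩ := roots {H_pol u}
  -- the action of the quotient is periodic
  have htors : ∀ g : G ⧸ N, ∃ k : ℕ, 0 < k ∧ ∀ e : E2, g ^ k • e = e := by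
    intro g
    obtain ⟨j, hj0, hj⟩ := isOfFinOrder_iff_pow_eq_one.1
      (isOfFinOrder_of_finite (MulAction.toPermHom (G ⧸ N) E1 g))
    have hz : ∀ f : E1, g ^ j • f = f := by
      intro f
      rw [← map_pow] at hj
      exact congrArg (fun σ : Equiv.Perm E1 => σ f) hj
    have hza : ∀ a : ℕ, 0 < a → ∀ b : E2, ev E2 ((g ^ j) ^ (a : ℤ)) (H_pol u) b = 0 := by
      intro a _ b
      apply hpol
      intro f
      rw [zpow_natCast]
      have : g ^ j ∈ MulAction.stabilizer (G ⧸ N) f := hz f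
      exact Subgroup.pow_mem _ this a
    obtain ⟨k, hk⟩ := H_prime (H_pol u) n hn (H_pol_coeff u) (g ^ j) hza
    refine ⟨j * n * q ^ k, Nat.mul_pos (Nat.mul_pos hj0 hn0) (Nat.pow_pos hq0), fun e => ?_⟩
    have h1 := unip_tors q hq ((g ^ j) ^ n) k e (by rw [hk]; trivial)
    rw [pow_mul, pow_mul]
    exact h1
  have hN : Noe (G ⧸ N) E2 := noe_of_maxN (QuotientGroup.mk'_surjective N) s2 hmax
  let K : Subgroup (G ⧸ N) := cent (⊤ : AddSubgroup E2)
  have hKn : K.Normal := cent_normal (fun _ _ _ => trivial)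
  have hfin : Finite ((G ⧸ N) ⧸ K) := by
    have : Group.FG ((G ⧸ N) ⧸ K) := QuotientGroup.fg _
    apply Helper111.EN.finite_of_fg_nilpotent
    intro g
    obtain ⟨g, rfl⟩ := QuotientGroup.mk'_surjective K g
    obtain ⟨k, hk, hk1⟩ := htors g
    rw [isOfFinOrder_iff_pow_eq_one]
    refine ⟨k, hk, ?_⟩
    rw [← map_pow, QuotientGroup.mk'_apply, QuotientGroup.eq_one_iff]
    intro e _
    exact hk1 e
  have h := finite_of_cent hN q hq0 (⊤ : AddSubgroup E2) (fun e _ => hq e) (fun _ _ _ => trivial) K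
    (fun g => Iff.rfl) hfin
  rw [AddSubgroup.coe_top] at h
  exact Set.finite_univ_iff.1 h

end Layer

end Pool.Agent.Y45.HM
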