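import Pool.Agent.Y45.HM.Simple
import Pool.Agent.H53R2.FinNil

set_option autoImplicit false
set_option linter.unusedSectionVars false

namespace Pool.Agent.Y45.HM

open H53R2 Helper294 Helper294.HallC

section Gen

variable {Γ E : Type} [Group Γ] [AddCommGroup E] [DistribMulAction Γ E]

/-- the action on a stable subgroup -/
def stbAct (B : AddSubgroup E) (hB : Stb Γ B) : DistribMulAction Γ ↥B where
  smul g x := ⟨g • x.1, hB g x.1 x.2⟩
  one_smul x := Subtype.ext (one_smul Γ x.1)
  mul_smul g h x := Subtype.ext (mul_smul g h x.1)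
  smul_zero g := Subtype.ext (smul_zero g)
  smul_add g x y := Subtype.ext (smul_add g x.1 y.1)

theorem noe_max (hN : Noe Γ E) (P : AddSubgroup E → Prop) (B0 : AddSubgroup E)
    (h0 : Stb Γ B0) (hP0 : P B0) :
    ∃ C : AddSubgroup E, Stb Γ C ∧ P C ∧ ∀ B : AddSubgroup E, C < B → Stb Γ B → ¬ P B := by
  by_contra hno
  have key : ∀ C : {C : AddSubgroup E // Stb Γ C ∧ P C},
      ∃ B : {C : AddSubgroup E // Stb Γ C ∧ P C}, C.1 < B.1 := by
    intro C
    by_contra h
    apply hno
    refine ⟨C.1, C.2.1, C.2.2, fun B hB h1 h2 => h ⟨⟨B, h1, h2⟩, hB⟩⟩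
  choose f hf using key
  let s : ℕ → {C : AddSubgroup E // Stb Γ C ∧ P C} := fun n => f^[n] ⟨B0, h0, hP0⟩
  have hs : ∀ n, (s n).1 < (s (n + 1)).1 := by
    intro n
    show (s n).1 < (f^[n + 1] _).1
    rw [Function.iterate_succ_apply']
    exact hf _
  have hmono : Monotone fun n => (s n).1 := monotone_nat_of_le_succ fun n => (hs n).le
  obtain ⟨n, hn⟩ := hN (fun n => (s n).1) hmono (fun n => (s n).2.1)
  exact absurd (hn (n + 1) (Nat.le_succ n)) (hs n).ne'

theorem closure_finite {A : Type} [AddCommGroup A] (s : Set A) (hs : s.Finite) (n : ℕ) (hn : 0 < n)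
    (h : ∀ x ∈ s, n • x = 0) : ((AddSubgroup.closure s : AddSubgroup A) : Set A).Finite := by
  have hfg : AddGroup.FG ↥(AddSubgroup.closure s) := by
    rw [AddGroup.fg_iff_addSubgroup_fg]
    exact ⟨hs.toFinset, by rw [hs.coe_toFinset]⟩
  have hall : ∀ x ∈ AddSubgroup.closure s, n • x = 0 := by
    intro x hx
    induction hx using AddSubgroup.closure_induction with
    | mem x hx => exact h x hx
    | zero => exact smul_zero _
    | add x y _ _ hx hy => rw [smul_add, hx, hy, add_zero]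
    | neg x _ hx => rw [smul_neg, hx, neg_zero]
  have hfin : Finite ↥(AddSubgroup.closure s) := by
    apply AddCommGroup.finite_of_fg_isAddTorsion
    intro x
    rw [isOfFinAddOrder_iff_nsmul_eq_zero]
    exact ⟨n, hn, Subtype.ext (hall x.1 x.2)⟩
  exact hfin

/-- the pointwise stabiliser -/
def cent (B : AddSubgroup E) : Subgroup Γ where
  carrier := {g | ∀ b ∈ B, g • b = b}
  one_mem' := fun b _ => one_smul Γ b
  mul_mem' := by
    intro g h hg hh b hb
    rw [mul_smul, hh b hb, hg b hb]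
  inv_mem' := by
    intro g hg b hb
    rw [inv_smul_eq_iff, hg b hb]

theorem cent_normal {B : AddSubgroup E} (hB : Stb Γ B) : (cent B : Subgroup Γ).Normal := by
  refine ⟨fun g hg h b hb => ?_⟩
  rw [mul_smul, mul_smul, hg _ (hB _ _ hb), smul_inv_smul]

theorem finite_of_cent (hN : Noe Γ E) (m : ℕ) (hm : 0 < m) (B : AddSubgroup E)
    (hmE : ∀ e ∈ B, m • e = 0) (hB : Stb Γ B) (K : Subgroup Γ)
    (hKmem : ∀ g, g ∈ K ↔ ∀ b ∈ B, g • b = b) (hfin : Finite (Γ ⧸ K)) : (B : Set E).Finite := by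
  classical
  obtain ⟨C, hC, ⟨hCB, hCf⟩, hCmax⟩ := noe_max hN (fun C => C ≤ B ∧ (C : Set E).Finite) ⊥
    (by
      intro g x hx
      rw [AddSubgroup.mem_bot] at hx ⊢
      rw [hx, smul_zero]) ⟨bot_le, Set.finite_singleton 0⟩
  by_cases hCB' : B ≤ C
  · exact hCf.subset hCB'
  · exfalso
    obtain ⟨b, hb, hbC⟩ := Set.not_subset.1 hCB'
    have horb : {x | ∃ g : Γ, x = g • b}.Finite := by
      let f : Γ ⧸ K → E := Quotient.lift (fun g : Γ => g • b) (by
        intro g h hgh
        have h1 : g⁻¹ * h ∈ K := QuotientGroup.leftRel_apply.1 hgh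
        have h2 := (hKmem _).1 h1 b hb
        rw [mul_smul, inv_smul_eq_iff] at h2
        exact h2.symm)
      refine (Set.finite_range f).subset ?_
      rintro x ⟨g, rfl⟩
      exact ⟨QuotientGroup.mk g, rfl⟩
    let D : AddSubgroup E := AddSubgroup.closure ((C : Set E) ∪ {x | ∃ g : Γ, x = g • b})
    have hD : Stb Γ D := by
      intro g x hx
      induction hx using AddSubgroup.closure_induction with
      | mem x hx =>
        rcases hx with hx | ⟨h, rfl⟩
        · exact AddSubgroup.subset_closure (Or.inl (hC g x hx))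
        · rw [← mul_smul]
          exact AddSubgroup.subset_closure (Or.inr ⟨g * h, rfl⟩)
      | zero => rw [smul_zero]; exact D.zero_mem
      | add x y _ _ hx hy => rw [smul_add]; exact D.add_mem hx hy
      | neg x _ hx => rw [smul_neg]; exact D.neg_mem hx
    have hCD : C ≤ D := fun x hx => AddSubgroup.subset_closure (Or.inl hx)
    have hbD : b ∈ D := AddSubgroup.subset_closure (Or.inr ⟨1, (one_smul Γ b).symm⟩)
    have hme' : ∀ x ∈ ((C : Set E) ∪ {x | ∃ g : Γ, x = g • b}), m • x = 0 := by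
      rintro x (hx | ⟨g, rfl⟩)
      · exact hmE x (hCB hx)
      · exact hmE _ (hB g b hb)
    refine hCmax D (lt_of_le_of_ne hCD ?_) hD ⟨?_, ?_⟩
    · intro h
      apply hbC
      have h5 : b ∈ C := by rw [h]; exact hbD
      exact h5
    · rw [AddSubgroup.closure_le]
      rintro x (hx | ⟨g, rfl⟩)
      · exact hCB hx
      · exact hB g b hb
    · exact closure_finite _ (hCf.union horb) m hm hme'

theorem fitting (hN : Noe Γ E) (e₀ : E) (he₀ : e₀ ≠ 0)
    (hmono : ∀ B : AddSubgroup E, Stb Γ B → B ≠ ⊥ → e₀ ∈ B) (B : AddSubgroup E) (hB : Stb Γ B)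
    (φ : E →+ E) (hφB : ∀ b ∈ B, φ b ∈ B) (hφ : ∀ (g : Γ), ∀ b ∈ B, φ (g • b) = g • φ b)
    (h0 : φ e₀ = 0) : ∃ n : ℕ, ∀ b ∈ B, φ^[n] b = 0 := by
  have hit : ∀ n : ℕ, ∀ b ∈ B, φ^[n] b ∈ B := by
    intro n
    induction n with
    | zero => intro b hb; exact hb
    | succ n ih => intro b hb; rw [Function.iterate_succ_apply']; exact hφB _ (ih b hb)
  have hcomm : ∀ (n : ℕ) (g : Γ), ∀ b ∈ B, φ^[n] (g • b) = g • φ^[n] b := by
    intro n
    induction n with
    | zero => intro g b hb; rfl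
    | succ n ih =>
      intro g b hb
      rw [Function.iterate_succ_apply', ih g b hb, hφ g _ (hit n b hb),
        Function.iterate_succ_apply']
  let f : ℕ → AddSubgroup E := fun m =>
    { carrier := {b | b ∈ B ∧ φ^[m] b = 0}
      zero_mem' := ⟨B.zero_mem, iterate_map_zero φ m⟩
      add_mem' := by
        rintro a b ⟨ha, ha'⟩ ⟨hb, hb'⟩
        exact ⟨B.add_mem ha hb, by rw [iterate_map_add, ha', hb', add_zero]⟩
      neg_mem' := by
        rintro a ⟨ha, ha'⟩
        exact ⟨B.neg_mem ha, by rw [iterate_map_neg, ha', neg_zero]⟩ }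
  have hf : Monotone f := by
    refine monotone_nat_of_le_succ fun n b hb => ⟨hb.1, ?_⟩
    rw [Function.iterate_succ_apply', hb.2, map_zero]
  obtain ⟨n, hn⟩ := hN f hf (by
    rintro m g b ⟨hb, hb'⟩
    exact ⟨hB g b hb, by rw [hcomm m g b hb, hb', smul_zero]⟩)
  refine ⟨n, ?_⟩
  let U : AddSubgroup E :=
    { carrier := {u | ∃ b ∈ B, φ^[n] b = u}
      zero_mem' := ⟨0, B.zero_mem, iterate_map_zero φ n⟩
      add_mem' := by
        rintro _ _ ⟨a, ha, rfl⟩ ⟨b, hb, rfl⟩
        exact ⟨a + b, B.add_mem ha hb, iterate_map_add φ n a b⟩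
      neg_mem' := by
        rintro _ ⟨a, ha, rfl⟩
        exact ⟨-a, B.neg_mem ha, iterate_map_neg φ n a⟩ }
  by_cases hU : U = ⊥
  · intro b hb
    have : φ^[n] b ∈ U := ⟨b, hb, rfl⟩
    rw [hU] at this
    exact this
  · exfalso
    obtain ⟨b, hb, hbe⟩ := hmono U (by
      rintro g _ ⟨b, hb, rfl⟩
      exact ⟨g • b, hB g b hb, hcomm n g b hb⟩) hU
    have h1 : b ∈ f (n + 1) := ⟨hb, by rw [Function.iterate_succ_apply', hbe, h0]⟩
    rw [hn (n + 1) (Nat.le_succ n)] at h1
    exact he₀ (hbe.symm.trans h1.2)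

theorem layers (B : AddSubgroup E) (φ : E →+ E) (hφB : ∀ b ∈ B, φ b ∈ B)
    (h1 : {b | b ∈ B ∧ φ b = 0}.Finite) (n : ℕ) : {b | b ∈ B ∧ φ^[n] b = 0}.Finite := by
  induction n with
  | zero =>
    refine (Set.finite_singleton (0 : E)).subset ?_
    rintro b ⟨_, hb⟩
    exact hb
  | succ n ih =>
    let ψ : ↥B → E := fun b => φ b
    have h2 : (ψ ⁻¹' {b | b ∈ B ∧ φ^[n] b = 0}).Finite := by
      refine Set.Finite.preimage' ih ?_
      rintro c _
      by_cases hc : ∃ b0 : ↥B, φ b0 = c
      · obtain ⟨b0, hb0⟩ := hc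
        have h3 : ((fun x : E => x + b0) '' {b | b ∈ B ∧ φ b = 0}).Finite := h1.image _
        refine Set.Finite.of_finite_image (f := Subtype.val) (h3.subset ?_)
          Subtype.val_injective.injOn
        rintro _ ⟨b, hb, rfl⟩
        have hb' : φ b = c := hb
        refine ⟨b - b0, ⟨B.sub_mem b.2 b0.2, ?_⟩, sub_add_cancel _ _⟩
        rw [map_sub, hb', hb0, sub_self]
      · refine Set.finite_empty.subset ?_
        intro b hb
        exact hc ⟨b, hb⟩
    refine (h2.image Subtype.val).subset ?_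
    rintro b ⟨hb, hb'⟩
    exact ⟨⟨b, hb⟩, ⟨hφB b hb, hb'⟩, rfl⟩

end Gen

theorem exists_central_inf (H : Type) [Group H] [Group.FG H] [Group.IsNilpotent H]
    (hinf : ¬ Finite H) : ∃ z ∈ Subgroup.center H, ∀ k : ℕ, 0 < k → z ^ k ≠ 1 := by
  by_contra hcon
  push Not at hcon
  apply hinf
  have hfg : Group.FG ↥(Subgroup.center H) :=
    (Group.fg_iff_subgroup_fg _).2 (nil_maxC H _)
  have hfin : Finite ↥(Subgroup.center H) := by
    refine Helper111.EN.finite_of_fg_solvable_torsion _ ?_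
    intro z
    rw [isOfFinOrder_iff_pow_eq_one]
    obtain ⟨k, hk, hk1⟩ := hcon z.1 z.2
    exact ⟨k, hk, Subtype.ext hk1⟩
  refine fin_nil H (Nat.card ↥(Subgroup.center H)) Nat.card_pos ?_
  intro z hz
  have h1 : (⟨z, hz⟩ : ↥(Subgroup.center H)) ^ Nat.card ↥(Subgroup.center H) = 1 := pow_card_eq_one'
  exact congrArg Subtype.val h1

/-- P. Hall: a noetherian monolithic module over a finitely generated nilpotent group is finite. -/
theorem mono_finite {Γ E : Type} [Group Γ] [Group.FG Γ] [Group.IsNilpotent Γ] [AddCommGroup E]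
    [DistribMulAction Γ E] (hN : Noe Γ E) (e₀ : E) (he₀ : e₀ ≠ 0)
    (hmono : ∀ B : AddSubgroup E, Stb Γ B → B ≠ ⊥ → e₀ ∈ B) : Finite E := by
  classical
  have hmaxC : MaxC Γ := nil_maxC Γ
  have hPC : PC Γ := ⟨(inferInstance : Group.IsSolvable Γ), hmaxC⟩
  -- the monolith
  let S : AddSubgroup E := AddSubgroup.closure {x | ∃ g : Γ, x = g • e₀}
  have hS : Stb Γ S := by
    intro g x hx
    induction hx using AddSubgroup.closure_induction with
    | mem x hx =>
      obtain ⟨h, rfl⟩ := hx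
      rw [← mul_smul]
      exact AddSubgroup.subset_closure ⟨g * h, rfl⟩
    | zero => rw [smul_zero]; exact S.zero_mem
    | add x y _ _ hx hy => rw [smul_add]; exact S.add_mem hx hy
    | neg x _ hx => rw [smul_neg]; exact S.neg_mem hx
  have heS : e₀ ∈ S := AddSubgroup.subset_closure ⟨1, (one_smul Γ e₀).symm⟩
  have hSle : ∀ B : AddSubgroup E, Stb Γ B → e₀ ∈ B → S ≤ B := by
    intro B hB heB
    rw [AddSubgroup.closure_le]
    rintro x ⟨g, rfl⟩
    exact hB g e₀ heB
  have key : ∀ z : Γ, (∀ (g : Γ), ∀ e ∈ S, z • g • e = g • z • e) →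
      (∃ k : ℕ, 0 < k ∧ ∀ e ∈ S, z ^ k • e = e) ∧ (∃ n : ℕ, 0 < n ∧ ∀ e ∈ S, n • e = 0) := by
    intro z hz
    let act : DistribMulAction Γ ↥S := stbAct S hS
    obtain ⟨⟨k, hk, hk1⟩, ⟨n, hn, hn1⟩⟩ := simple_periodic (E := ↥S) hPC
      ⟨⟨e₀, heS⟩, fun h => he₀ (congrArg Subtype.val h)⟩ (by
        intro B hB
        by_cases h : B = ⊥
        · exact Or.inl h
        · right
          have h1 : Stb Γ (B.map S.subtype) := by
            rintro g _ ⟨b, hb, rfl⟩
            exact ⟨g • b, hB g b hb, rfl⟩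
          have h2 : B.map S.subtype ≠ ⊥ := by
            intro h3
            apply h
            rwa [AddSubgroup.map_eq_bot_iff_of_injective _ S.subtype_injective] at h3
          have h4 := hSle _ h1 (hmono _ h1 h2)
          rw [eq_top_iff]
          intro x _
          obtain ⟨b, hb, hbx⟩ := h4 x.2
          have : b = x := Subtype.ext hbx
          rwa [← this]) z (fun g e => Subtype.ext (hz g e.1 e.2))
    exact ⟨⟨k, hk, fun e he => congrArg Subtype.val (hk1 ⟨e, he⟩)⟩,
      ⟨n, hn, fun e he => congrArg Subtype.val (hn1 ⟨e, he⟩)⟩⟩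
  -- bounded exponent
  obtain ⟨m, hm, hmE⟩ : ∃ m : ℕ, 0 < m ∧ ∀ e : E, m • e = 0 := by
    obtain ⟨-, n, hn, hn1⟩ := key 1 (fun g e _ => by rw [one_smul, one_smul])
    obtain ⟨j, hj⟩ := fitting hN e₀ he₀ hmono ⊤ (fun _ _ _ => trivial)
      (DistribSMul.toAddMonoidHom E n) (fun _ _ => trivial) (fun g b _ => smul_comm n g b)
      (hn1 e₀ heS)
    refine ⟨n ^ j, Nat.pow_pos hn, fun e => ?_⟩
    have h1 : ∀ i : ℕ, (DistribSMul.toAddMonoidHom E n)^[i] e = n ^ i • e := by
      intro i
      induction i with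
      | zero => rw [pow_zero, one_smul]; rfl
      | succ i ih =>
        rw [Function.iterate_succ_apply', ih, pow_succ', mul_smul]
        rfl
    rw [← h1]
    exact hj e trivial
  -- the main induction
  have main : ∀ K : Subgroup Γ, ∀ B : AddSubgroup E, Stb Γ B → cent B = K → (B : Set E).Finite := by
    have hwf := hmaxC.wf
    intro K
    induction K using hwf.wf.induction with
    | _ K ih =>
    intro B hB hK
    by_cases hB0 : B = ⊥
    · rw [hB0]; exact Set.finite_singleton 0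
    have heB : e₀ ∈ B := hmono B hB hB0
    have hSB : S ≤ B := hSle B hB heB
    have hKn : K.Normal := by rw [← hK]; exact cent_normal hB
    have hKmem : ∀ g, g ∈ K ↔ ∀ b ∈ B, g • b = b := by
      intro g; rw [← hK]; exact Iff.rfl
    by_cases hfin : Finite (Γ ⧸ K)
    · exact finite_of_cent hN m hm B (fun x _ => hmE x) hB K hKmem hfin
    · obtain ⟨zb, hzb, hzi⟩ := exists_central_inf (Γ ⧸ K) hfin
      obtain ⟨z, rfl⟩ := QuotientGroup.mk'_surjective K zb
      have hcomm : ∀ y : Γ, QuotientGroup.mk' K y ∈ Subgroup.center (Γ ⧸ K) → ∀ (g : Γ), ∀ b ∈ B,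
          y • g • b = g • y • b := by
        intro y hy g b hb
        have h1 := Subgroup.mem_center_iff.1 hy (QuotientGroup.mk' K g)
        rw [← map_mul, ← map_mul, QuotientGroup.mk'_apply, QuotientGroup.mk'_apply,
          QuotientGroup.eq] at h1
        have h2 := (hKmem _).1 h1 b hb
        rw [mul_smul, inv_smul_eq_iff] at h2
        rw [← mul_smul, ← mul_smul]
        exact h2
      obtain ⟨⟨k, hk, hk1⟩, -⟩ := key z (fun g e he => hcomm z hzb g e (hSB he))
      let y : Γ := z ^ k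
      have hy : QuotientGroup.mk' K y ∈ Subgroup.center (Γ ⧸ K) := by
        rw [map_pow]
        exact (Subgroup.center (Γ ⧸ K)).pow_mem hzb k
      have hyc := hcomm y hy
      let φ : E →+ E := DistribSMul.toAddMonoidHom E y - AddMonoidHom.id E
      have hφ : ∀ e, φ e = y • e - e := fun e => rfl
      have hφB : ∀ b ∈ B, φ b ∈ B := fun b hb => B.sub_mem (hB y b hb) hb
      have hφc : ∀ (g : Γ), ∀ b ∈ B, φ (g • b) = g • φ b := by
        intro g b hb
        rw [hφ, hφ, smul_sub, hyc g b hb]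
      let B1 : AddSubgroup E := B ⊓ φ.ker
      have hB1 : Stb Γ B1 := by
        rintro g b ⟨hb, hb'⟩
        refine ⟨hB g b hb, ?_⟩
        have h1 : φ b = 0 := hb'
        show φ (g • b) = 0
        rw [hφc g b hb, h1, smul_zero]
      have hlt : K < cent B1 := by
        refine lt_of_le_of_ne ?_ ?_
        · intro g hg b hb
          exact (hKmem g).1 hg b hb.1
        · intro h
          have h1 : y ∈ cent B1 := by
            rintro b ⟨_, hb'⟩
            have h2 : y • b - b = 0 := hb'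
            exact sub_eq_zero.1 h2
          rw [← h] at h1
          apply hzi k hk
          rw [← map_pow, QuotientGroup.mk'_apply, QuotientGroup.eq_one_iff]
          exact h1
      have hB1f : (B1 : Set E).Finite := ih (cent B1) hlt B1 hB1 rfl
      obtain ⟨j, hj⟩ := fitting hN e₀ he₀ hmono B hB φ hφB hφc (by
        rw [hφ, sub_eq_zero]
        exact hk1 e₀ heS)
      refine (layers B φ hφB (hB1f.subset ?_) j).subset ?_
      · rintro b ⟨hb, hb'⟩
        exact ⟨hb, hb'⟩
      · intro b hb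
        exact ⟨hb, hj b hb⟩
  have h := main _ (⊤ : AddSubgroup E) (fun _ _ _ => trivial) rfl
  rw [AddSubgroup.coe_top] at h
  exact Set.finite_univ_iff.1 h

end Pool.Agent.Y45.HM
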