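import Pool.Agent.Y45.HM.Sub
import Pool.Agent.Helper294.HallC.Defs

set_option autoImplicit false
set_option linter.unusedSectionVars false

namespace Pool.Agent.Y45.HM

section Noe

variable {J Γ A : Type} [CommRing J] [Group Γ] [AddCommGroup A] [Module J A]
  [DistribMulAction Γ A] [SMulCommClass Γ J A]

/-- ascending chain condition for the `K`-stable submodules between `X` and `Y` -/
def NoeS (K : Subgroup Γ) (X Y : Submodule J A) : Prop :=
  ∀ f : ℕ → Submodule J A, Monotone f → (∀ n, X ≤ f n ∧ f n ≤ Y ∧ St K (f n)) →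
    ∃ n, ∀ m, n ≤ m → f m = f n

/-- the sum `X + N + tN + … + t^(n-1) N` -/
def Sq (t : Γ) (X N : Submodule J A) : ℕ → Submodule J A
  | 0 => X
  | n + 1 => Sq t X N n ⊔ tr (t ^ n) N

theorem Sq_succ (t : Γ) (X N : Submodule J A) (n : ℕ) :
    Sq t X N (n + 1) = Sq t X N n ⊔ tr (t ^ n) N := rfl

theorem Sq_mono (t : Γ) (X N : Submodule J A) : Monotone (Sq t X N) :=
  monotone_nat_of_le_succ fun _ => le_sup_left

theorem le_Sq (t : Γ) (X N : Submodule J A) (n : ℕ) : X ≤ Sq t X N n :=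
  Sq_mono t X N (Nat.zero_le n)

theorem Sq_gen (t : Γ) (X N : Submodule J A) {n i : ℕ} (h : i < n) {x : A} (hx : x ∈ N) :
    t ^ i • x ∈ Sq t X N n :=
  Sq_mono t X N (show i + 1 ≤ n from h) (Submodule.mem_sup_right (smul_mem_tr.2 hx))

theorem Sq_tr (t : Γ) (X N : Submodule J A) (hX : tr t X ≤ X) (n : ℕ) :
    tr t (Sq t X N n) ≤ Sq t X N (n + 1) := by
  induction n with
  | zero => exact hX.trans (le_Sq t X N 1)
  | succ n ih =>
    rw [Sq_succ, tr_sup, tr_tr, ← pow_succ', Sq_succ t X N (n + 1)]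
    exact sup_le_sup_right ih _

theorem Sq_t (t : Γ) (X N : Submodule J A) (hX : tr t X ≤ X) (n : ℕ) {z : A}
    (hz : z ∈ Sq t X N n) : t • z ∈ Sq t X N (n + 1) :=
  Sq_tr t X N hX n (smul_mem_tr.2 hz)

theorem Sq_tpow (t : Γ) (X N : Submodule J A) (hX : tr t X ≤ X) (k n : ℕ) {z : A}
    (hz : z ∈ Sq t X N n) : t ^ k • z ∈ Sq t X N (n + k) := by
  induction k with
  | zero => simpa using hz
  | succ k ih =>
    rw [pow_succ', mul_smul]
    exact Sq_t t X N hX _ ih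

theorem Sq_St {R : Subgroup Γ} {t : Γ} (ht : ∀ x, x ∈ R ↔ t * x * t⁻¹ ∈ R)
    {X N : Submodule J A} (hX : St R X) (hN : St R N) (n : ℕ) : St R (Sq t X N n) := by
  induction n with
  | zero => exact hX
  | succ n ih => exact ih.sup (hN.tr (norm_pow ht n))

theorem Sq_cover {R P : Subgroup Γ} {t : Γ} (hc : ∀ x ∈ P, ∃ k : ℤ, t ^ (-k) * x ∈ R)
    {X N : Submodule J A} (hX : tr t X ≤ X) (F : Set A)
    (hN : ∀ g ∈ R, ∀ a ∈ F, g • a ∈ N) (z : A)
    (hz : z ∈ X ⊔ Submodule.span J {a : A | ∃ g ∈ P, ∃ x ∈ F, a = g • x}) :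
    ∃ K n : ℕ, t ^ K • z ∈ Sq t X N n := by
  have hadd : ∀ a b : A, (∃ K n : ℕ, t ^ K • a ∈ Sq t X N n) → (∃ K n : ℕ, t ^ K • b ∈ Sq t X N n) →
      ∃ K n : ℕ, t ^ K • (a + b) ∈ Sq t X N n := by
    rintro a b ⟨K1, n1, h1⟩ ⟨K2, n2, h2⟩
    refine ⟨K1 + K2, n1 + K2 + (n2 + K1), ?_⟩
    rw [smul_add]
    refine Submodule.add_mem _ ?_ ?_
    · rw [add_comm K1 K2, pow_add, mul_smul]
      exact Sq_mono t X N (by omega) (Sq_tpow t X N hX K2 n1 h1)
    · rw [pow_add, mul_smul]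
      exact Sq_mono t X N (by omega) (Sq_tpow t X N hX K1 n2 h2)
  rw [Submodule.mem_sup] at hz
  obtain ⟨x, hx, w, hw, rfl⟩ := hz
  apply hadd
  · exact ⟨0, 0, by rw [pow_zero, one_smul]; exact hx⟩
  · induction hw using Submodule.span_induction with
    | mem a ha =>
      obtain ⟨g, hg, x, hx, rfl⟩ := ha
      obtain ⟨k, hk⟩ := hc g hg
      have h1 : (t ^ (-k) * g) • x ∈ N := hN _ hk _ hx
      obtain ⟨m, hm⟩ : ∃ m : ℕ, (m : ℤ) = (k.natAbs : ℤ) + k := ⟨(k.natAbs + k).toNat, by omega⟩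
      refine ⟨k.natAbs, m + 1, ?_⟩
      have h2 : t ^ k.natAbs • (g • x) = t ^ m • ((t ^ (-k) * g) • x) := by
        rw [← mul_smul, ← mul_smul]
        congr 1
        rw [← mul_assoc, ← zpow_natCast t m, hm, ← zpow_add, ← zpow_natCast t k.natAbs]
        congr 2
        ring
      rw [h2]
      exact Sq_gen t X N (by omega) h1
    | zero => exact ⟨0, 0, by rw [smul_zero]; exact Submodule.zero_mem _⟩
    | add a b _ _ h1 h2 => exact hadd a b h1 h2
    | smul c a _ h1 =>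
      obtain ⟨K1, n1, h1⟩ := h1
      exact ⟨K1, n1, by rw [smul_comm]; exact Submodule.smul_mem _ _ h1⟩

/-- leading coefficients of degree `n` -/
def Lc (t : Γ) (X N : Submodule J A) (n : ℕ) (U : Submodule J A) : Submodule J A where
  carrier := {m | m ∈ N ∧ ∃ z ∈ U, z - t ^ n • m ∈ Sq t X N n}
  zero_mem' := ⟨N.zero_mem, 0, U.zero_mem, by rw [smul_zero, sub_zero]; exact Submodule.zero_mem _⟩
  add_mem' := by
    rintro a b ⟨ha, z, hz, h1⟩ ⟨hb, w, hw, h2⟩
    refine ⟨N.add_mem ha hb, z + w, U.add_mem hz hw, ?_⟩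
    have : z + w - t ^ n • (a + b) = (z - t ^ n • a) + (w - t ^ n • b) := by
      rw [smul_add]; abel
    rw [this]
    exact Submodule.add_mem _ h1 h2
  smul_mem' := by
    rintro c a ⟨ha, z, hz, h1⟩
    refine ⟨N.smul_mem c ha, c • z, U.smul_mem c hz, ?_⟩
    have : c • z - t ^ n • (c • a) = c • (z - t ^ n • a) := by
      rw [smul_sub, smul_comm (t ^ n) c a]
    rw [this]
    exact Submodule.smul_mem _ _ h1

theorem Lc_le (t : Γ) (X N : Submodule J A) (n : ℕ) (U : Submodule J A) : Lc t X N n U ≤ N :=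
  fun _ hm => hm.1

theorem le_Lc (t : Γ) (X N : Submodule J A) (n : ℕ) (U : Submodule J A) (hXN : X ≤ N)
    (hXU : X ≤ U) (hX : ∀ x ∈ X, t ^ n • x ∈ X) : X ≤ Lc t X N n U := by
  intro x hx
  exact ⟨hXN hx, t ^ n • x, hXU (hX x hx), by rw [sub_self]; exact Submodule.zero_mem _⟩

theorem Lc_succ (t : Γ) (X N : Submodule J A) (hX : tr t X ≤ X) (n : ℕ)
    (U : Submodule J A) (hU : ∀ x ∈ U, t • x ∈ U) :
    Lc t X N n U ≤ Lc t X N (n + 1) U := by
  rintro m ⟨hm, z, hz, h⟩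
  refine ⟨hm, t • z, hU z hz, ?_⟩
  have : t • z - t ^ (n + 1) • m = t • (z - t ^ n • m) := by
    rw [smul_sub, ← mul_smul, ← pow_succ']
  rw [this]
  exact Sq_t t X N hX n h

theorem Lc_deg (t : Γ) (X N : Submodule J A) (hX : tr t X ≤ X) {n m : ℕ} (hnm : n ≤ m)
    (U : Submodule J A) (hU : ∀ x ∈ U, t • x ∈ U) :
    Lc t X N n U ≤ Lc t X N m U := by
  induction m, hnm using Nat.le_induction with
  | base => exact le_rfl
  | succ m _ ih => exact ih.trans (Lc_succ t X N hX m U hU)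

theorem Lc_mono (t : Γ) (X N : Submodule J A) (n : ℕ) {U U' : Submodule J A} (h : U ≤ U') :
    Lc t X N n U ≤ Lc t X N n U' := by
  rintro m ⟨hm, z, hz, h'⟩
  exact ⟨hm, z, h hz, h'⟩

theorem Lc_St {R : Subgroup Γ} {t : Γ} (hn : ∀ x, x ∈ R ↔ t * x * t⁻¹ ∈ R)
    {X N : Submodule J A} (hX : St R X) (hN : St R N) (n : ℕ) {U : Submodule J A}
    (hU : St R U) : St R (Lc t X N n U) := by
  rintro r hr m ⟨hm, z, hz, h⟩
  have hr' : t ^ n * r * (t ^ n)⁻¹ ∈ R := (norm_pow hn n r).1 hr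
  refine ⟨hN r hr m hm, (t ^ n * r * (t ^ n)⁻¹) • z, hU _ hr' z hz, ?_⟩
  have : (t ^ n * r * (t ^ n)⁻¹) • z - t ^ n • (r • m)
      = (t ^ n * r * (t ^ n)⁻¹) • (z - t ^ n • m) := by
    rw [smul_sub, ← mul_smul, ← mul_smul]
    congr 2
    group
  rw [this]
  exact Sq_St hn hX hN n _ hr' _ h

/-- the twisted Hilbert basis theorem (P. Hall): adjoining one element. -/
theorem NoeS.step {R P : Subgroup Γ} {t : Γ} (hRP : R ≤ P) (ht : t ∈ P)
    (hn : ∀ x, x ∈ R ↔ t * x * t⁻¹ ∈ R) {X N Y : Submodule J A} (hX : St P X) (hXN : X ≤ N)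
    (hNR : St R N) (hcov : ∀ y ∈ Y, ∃ K n : ℕ, t ^ K • y ∈ Sq t X N n) (hN : NoeS R X N) :
    NoeS P X Y := by
  intro f hf hfs
  have hXt : tr t X ≤ X := (hX.tr_eq ht).le
  have hft : ∀ j, ∀ x ∈ f j, t • x ∈ f j := fun j x hx => (hfs j).2.2 t ht x hx
  have hgood : ∀ n j, X ≤ Lc t X N n (f j) ∧ Lc t X N n (f j) ≤ N ∧ St R (Lc t X N n (f j)) :=
    fun n j => ⟨le_Lc t X N n (f j) hXN (hfs j).1 (fun x hx => hX _ (P.pow_mem ht n) x hx),
      Lc_le t X N n (f j), Lc_St hn (hX.mono hRP) hNR n ((hfs j).2.2.mono hRP)⟩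
  obtain ⟨j0, hj0⟩ := hN (fun j => Lc t X N j (f j))
    (monotone_nat_of_le_succ fun j => (Lc_succ t X N hXt j (f j) (hft j)).trans
      (Lc_mono t X N (j + 1) (hf (Nat.le_succ j)))) (fun j => hgood j j)
  have hcol : ∀ n, ∃ j, ∀ m, j ≤ m → Lc t X N n (f m) = Lc t X N n (f j) := fun n =>
    hN (fun j => Lc t X N n (f j)) (fun i j hij => Lc_mono t X N n (hf hij)) (fun j => hgood n j)
  choose c hcc using hcol
  let J' := max j0 ((Finset.range j0).sup c)
  have hJ0 : j0 ≤ J' := le_max_left _ _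
  have hJc : ∀ n, n < j0 → c n ≤ J' := fun n hn' =>
    (Finset.le_sup (f := c) (Finset.mem_range.2 hn')).trans (le_max_right _ _)
  have hA : ∀ n j, J' ≤ j → Lc t X N n (f j) = Lc t X N n (f J') := by
    intro n j hj
    by_cases hnj : n < j0
    · rw [hcc n j ((hJc n hnj).trans hj), hcc n J' (hJc n hnj)]
    · refine le_antisymm ?_ (Lc_mono t X N n (hf hj))
      calc Lc t X N n (f j) ≤ Lc t X N (max n j) (f j) :=
            Lc_deg t X N hXt (le_max_left _ _) _ (hft j)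
        _ ≤ Lc t X N (max n j) (f (max n j)) := Lc_mono t X N _ (hf (le_max_right _ _))
        _ = Lc t X N j0 (f j0) := hj0 (max n j) (by omega)
        _ ≤ Lc t X N n (f j0) := Lc_deg t X N hXt (by omega) _ (hft j0)
        _ ≤ Lc t X N n (f J') := Lc_mono t X N _ (hf hJ0)
  refine ⟨J', fun j hj => le_antisymm ?_ (hf hj)⟩
  have hB : ∀ n, ∀ z ∈ f j, z ∈ Sq t X N n → z ∈ f J' := by
    intro n
    induction n with
    | zero =>
      intro z _ hz
      exact (hfs J').1 hz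
    | succ n ih =>
      intro z hzf hz
      rw [Sq_succ, Submodule.mem_sup] at hz
      obtain ⟨s, hs, w, hw, hzs⟩ := hz
      rw [mem_tr] at hw
      have hw' : t ^ n • (t ^ n)⁻¹ • w = w := smul_inv_smul _ _
      have h1 : (t ^ n)⁻¹ • w ∈ Lc t X N n (f j) :=
        ⟨hw, z, hzf, by rw [hw', ← hzs, add_sub_cancel_right]; exact hs⟩
      rw [hA n j hj] at h1
      obtain ⟨_, z', hz', h2⟩ := h1
      rw [hw'] at h2
      have h3 : z - z' ∈ Sq t X N n := by
        have : z - z' = s - (z' - w) := by rw [← hzs]; abel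
        rw [this]
        exact Submodule.sub_mem _ hs h2
      have h4 : z - z' ∈ f j := (f j).sub_mem hzf (hf hj hz')
      have h5 := (f J').add_mem (ih _ h4 h3) hz'
      rwa [sub_add_cancel] at h5
  intro z hz
  obtain ⟨K, n, hKn⟩ := hcov z ((hfs j).2.1 hz)
  have h1 : t ^ K • z ∈ f J' := hB n _ ((hfs j).2.2 _ (P.pow_mem ht K) z hz) hKn
  have h2 := (hfs J').2.2 _ (P.inv_mem (P.pow_mem ht K)) _ h1
  rwa [inv_smul_smul] at h2

theorem NoeS.base [IsNoetherianRing J] (K : Subgroup Γ) (X Y : Submodule J A) (F : Finset A)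
    (hY : Y = X ⊔ Submodule.span J (F : Set A)) : NoeS K X Y := by
  intro f hf hfs
  have hfin : (Y.map X.mkQ).FG := by
    rw [hY, Submodule.map_sup, Submodule.mkQ_map_self, bot_sup_eq]
    exact (Submodule.fg_span F.finite_toSet).map _
  have : IsNoetherian J ↥(Y.map X.mkQ) := isNoetherian_of_fg_of_noetherian _ hfin
  obtain ⟨n, hn⟩ := monotone_stabilizes_iff_noetherian.2 this
    ⟨fun n => ((f n).map X.mkQ).comap (Y.map X.mkQ).subtype, fun a b hab =>
      Submodule.comap_mono (Submodule.map_mono (hf hab))⟩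
  refine ⟨n, fun m hm => le_antisymm ?_ (hf hm)⟩
  have h1 : ((f n).map X.mkQ).comap (Y.map X.mkQ).subtype =
    ((f m).map X.mkQ).comap (Y.map X.mkQ).subtype := hn m hm
  intro x hx
  have hxY : X.mkQ x ∈ Y.map X.mkQ := Submodule.mem_map_of_mem ((hfs m).2.1 hx)
  have h2 : (⟨X.mkQ x, hxY⟩ : ↥(Y.map X.mkQ)) ∈
      ((f m).map X.mkQ).comap (Y.map X.mkQ).subtype := Submodule.mem_map_of_mem hx
  rw [← h1] at h2
  obtain ⟨y, hy, hxy⟩ := h2
  have hxy' : X.mkQ y = X.mkQ x := hxy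
  have h3 : y - x ∈ X := (Submodule.Quotient.eq X).1 hxy'
  have h4 := (f n).sub_mem hy ((hfs n).1 h3)
  rwa [sub_sub_cancel] at h4

/-- `Y` is finitely generated modulo `X` as a module over `J` and `K` -/
def FGS (K : Subgroup Γ) (X Y : Submodule J A) : Prop :=
  ∃ F : Finset A, Y = X ⊔ Submodule.span J {a : A | ∃ g ∈ K, ∃ x ∈ (F : Set A), a = g • x}

theorem span_St (K : Subgroup Γ) (F : Set A) :
    St K (Submodule.span J {a : A | ∃ g ∈ K, ∃ x ∈ F, a = g • x}) := by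
  intro g hg x hx
  induction hx using Submodule.span_induction with
  | mem a ha =>
    obtain ⟨h, hh, x, hx, rfl⟩ := ha
    rw [← mul_smul]
    exact Submodule.subset_span ⟨g * h, K.mul_mem hg hh, x, hx, rfl⟩
  | zero => rw [smul_zero]; exact Submodule.zero_mem _
  | add a b _ _ h1 h2 => rw [smul_add]; exact Submodule.add_mem _ h1 h2
  | smul c a _ h1 => rw [smul_comm]; exact Submodule.smul_mem _ _ h1

theorem span_bot (F : Set A) :
    {a : A | ∃ g ∈ (⊥ : Subgroup Γ), ∃ x ∈ F, a = g • x} = F := by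
  ext a
  constructor
  · rintro ⟨g, hg, x, hx, rfl⟩
    rw [Subgroup.mem_bot.1 hg, one_smul]
    exact hx
  · intro ha
    exact ⟨1, Subgroup.mem_bot.2 rfl, a, ha, (one_smul _ _).symm⟩

theorem FGS.noe [IsNoetherianRing J] : ∀ (s : ℕ) (K : Subgroup Γ), Helper294.HallC.Ser s K →
    ∀ X Y : Submodule J A, St K X → FGS K X Y → NoeS K X Y := by
  intro s
  induction s with
  | zero =>
    intro K hK X Y _ hF
    have hK' : K = ⊥ := hK
    subst hK'
    obtain ⟨F, hF⟩ := hF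
    rw [span_bot] at hF
    exact NoeS.base _ X Y F hF
  | succ s ih =>
    rintro K ⟨R, t, hRK, ht, hn, hc, hs⟩ X Y hX ⟨F, hF⟩
    let N : Submodule J A := X ⊔ Submodule.span J {a : A | ∃ g ∈ R, ∃ x ∈ (F : Set A), a = g • x}
    have hNR : St R N := (hX.mono hRK).sup (span_St R _)
    have hN : NoeS R X N := ih R hs X N (hX.mono hRK) ⟨F, rfl⟩
    refine NoeS.step hRK ht hn hX le_sup_left hNR ?_ hN
    intro y hy
    rw [hF] at hy
    refine Sq_cover (N := N) hc (hX.tr_eq ht).le (F : Set A) ?_ y hy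
    intro g hg a ha
    exact Submodule.mem_sup_right (Submodule.subset_span ⟨g, hg, a, ha, rfl⟩)

end Noe

end Pool.Agent.Y45.HM
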