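import Pool.Agent.Y45.HM.Layer
import Pool.Agent.Helper111.EN.Resid

set_option autoImplicit false
set_option linter.unusedSectionVars false

namespace Pool.Agent.Y45.HM

open H53R2 Helper294 Helper294.HallC
open scoped commutatorElement

section UZ

variable {G : Type} [Group G]

/-- the elements of `N` that are central in `N` modulo `X` -/
def upcN (N X : Subgroup G) [X.Normal] : Subgroup G where
  carrier := {x | x ∈ N ∧ ∀ n ∈ N, ⁅x, n⁆ ∈ X}
  one_mem' := ⟨N.one_mem, fun n _ => by rw [commutatorElement_one_left]; exact X.one_mem⟩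
  mul_mem' := by
    rintro x y ⟨hx, hx'⟩ ⟨hy, hy'⟩
    refine ⟨N.mul_mem hx hy, fun n hn => ?_⟩
    have h1 : ⁅x * y, n⁆ = x * ⁅y, n⁆ * x⁻¹ * ⁅x, n⁆ := by
      rw [commutatorElement_def, commutatorElement_def, commutatorElement_def]; group
    rw [h1]
    exact X.mul_mem ((inferInstance : X.Normal).conj_mem _ (hy' n hn) x) (hx' n hn)
  inv_mem' := by
    rintro x ⟨hx, hx'⟩
    refine ⟨N.inv_mem hx, fun n hn => ?_⟩
    have h1 : ⁅x⁻¹, n⁆ = x⁻¹ * ⁅x, n⁆⁻¹ * x⁻¹⁻¹ := by
      rw [commutatorElement_def, commutatorElement_def]; group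
    rw [h1]
    exact (inferInstance : X.Normal).conj_mem _ (X.inv_mem (hx' n hn)) x⁻¹

theorem upcN_normal (N X : Subgroup G) [hN : N.Normal] [hX : X.Normal] : (upcN N X).Normal := by
  refine ⟨?_⟩
  rintro x ⟨hx, hx'⟩ g
  refine ⟨hN.conj_mem x hx g, fun n hn => ?_⟩
  have h1 : ⁅g * x * g⁻¹, n⁆ = g * ⁅x, g⁻¹ * n * g⁻¹⁻¹⁆ * g⁻¹ := by
    rw [commutatorElement_def, commutatorElement_def]; group
  rw [h1]
  exact hX.conj_mem _ (hx' _ (hN.conj_mem n hn g⁻¹)) g

/-- the upper central series of `N`, as normal subgroups of `G` -/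
def UZ (N : Subgroup G) [N.Normal] : ℕ → {X : Subgroup G // X.Normal}
  | 0 => ⟨⊥, inferInstance⟩
  | n + 1 => ⟨@upcN G _ N (UZ N n).1 (UZ N n).2, @upcN_normal G _ N (UZ N n).1 _ (UZ N n).2⟩

/-- the upper central series of `N`, as normal subgroups of `G` -/
def XZ (N : Subgroup G) [N.Normal] (n : ℕ) : Subgroup G := (UZ N n).1

instance XZ_normal (N : Subgroup G) [N.Normal] (n : ℕ) : (XZ N n).Normal := (UZ N n).2

theorem XZ_zero (N : Subgroup G) [N.Normal] : XZ N 0 = ⊥ := rfl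

theorem mem_XZ_succ {N : Subgroup G} [N.Normal] {n : ℕ} {x : G} :
    x ∈ XZ N (n + 1) ↔ x ∈ N ∧ ∀ m ∈ N, ⁅x, m⁆ ∈ XZ N n := Iff.rfl

theorem XZ_le (N : Subgroup G) [N.Normal] (n : ℕ) : XZ N n ≤ N := by
  cases n with
  | zero => rw [XZ_zero]; exact bot_le
  | succ n => exact fun x hx => hx.1

theorem Lw_le_XZ (N : Subgroup G) [N.Normal] (c : ℕ) (hc : Lw N c N = ⊥) (i : ℕ) :
    ∀ j, j + i = c → Lw N j N ≤ XZ N i := by
  induction i with
  | zero =>
    intro j hj
    have : j = c := by omega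
    subst this
    rw [hc]; exact bot_le
  | succ i ih =>
    intro j hj x hx
    refine mem_XZ_succ.2 ⟨Lw_le N N j hx, fun m hm => ?_⟩
    apply ih (j + 1) (by omega)
    rw [Lw_succ]
    exact Subgroup.commutator_mem_commutator hx hm

theorem XZ_sec (N : Subgroup G) [N.Normal] (i : ℕ) :
    ∃ (E : Type) (_ : AddCommGroup E) (_ : DistribMulAction (G ⧸ N) E),
      Nonempty (SecMod (QuotientGroup.mk' N) (XZ N i) (XZ N (i + 1)) E) := by
  have hker : ⁅XZ N (i + 1), (QuotientGroup.mk' N).ker⁆ ≤ XZ N i := by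
    rw [QuotientGroup.ker_mk', Subgroup.commutator_le]
    intro x hx m hm
    exact (mem_XZ_succ.1 hx).2 m hm
  refine exists_secMod (QuotientGroup.mk' N) (QuotientGroup.mk'_surjective N) _ _ ?_ hker
  refine le_trans (Subgroup.commutator_mono le_rfl ?_) hker
  rw [QuotientGroup.ker_mk']
  exact XZ_le N _

/-- all layers are finite -/
theorem layers_finite (u : UI) (hG : u.Grp G) (hmax : MaxN G) (N : Subgroup G) [N.Normal]
    [Group.FG (G ⧸ N)] [Group.IsNilpotent (G ⧸ N)] (g₀ : G) (hg₀ : g₀ ≠ 1)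
    (hmono : ∀ M : Subgroup G, M.Normal → M ≠ ⊥ → g₀ ∈ M) (i : ℕ) :
    ∃ (E : Type) (_ : AddCommGroup E) (_ : DistribMulAction (G ⧸ N) E)
      (_ : SecMod (QuotientGroup.mk' N) (XZ N i) (XZ N (i + 1)) E), Finite E := by
  induction i with
  | zero =>
    obtain ⟨E, _, _, ⟨s⟩⟩ := XZ_sec N 0
    refine ⟨E, _, _, s, ?_⟩
    have hrep1 : ∀ g, s.rep g 0 → g = 1 := by
      rintro g ⟨h1, h2⟩
      have h3 := (s.ker ⟨g, h1⟩).1 h2
      exact h3
    by_cases hX : XZ N (0 + 1) = ⊥
    · have : Subsingleton E := by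
        refine ⟨fun a b => ?_⟩
        have key : ∀ e : E, e = 0 := by
          intro e
          obtain ⟨g, hg⟩ := s.exists_rep e
          have h1 : g ∈ XZ N (0 + 1) := hg.1
          rw [hX] at h1
          exact SecMod.rep_mem_zero hg h1
        rw [key a, key b]
      exact inferInstance
    · have hgX := hmono _ (XZ_normal N _) hX
      obtain ⟨e₀, he₀⟩ : ∃ e₀, s.rep g₀ e₀ := ⟨(s.π ⟨g₀, hgX⟩).toAdd, hgX, rfl⟩
      have he0 : e₀ ≠ 0 := by
        rintro rfl
        exact hg₀ (hrep1 _ he₀)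
      refine mono_finite (noe_of_maxN (QuotientGroup.mk'_surjective N) s hmax) e₀ he0 ?_
      intro B hB hB0
      let F : Subgroup G :=
        { carrier := {g | ∃ e ∈ B, s.rep g e}
          one_mem' := ⟨0, zero_mem _, s.rep_one⟩
          mul_mem' := by
            rintro a b ⟨e, he, h1⟩ ⟨f, hf, h2⟩
            exact ⟨e + f, add_mem he hf, SecMod.rep_mul h1 h2⟩
          inv_mem' := by
            rintro a ⟨e, he, h1⟩
            exact ⟨-e, neg_mem he, SecMod.rep_inv h1⟩ }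
      have hF : F.Normal := by
        refine ⟨?_⟩
        rintro g ⟨e, he, hg⟩ x
        exact ⟨QuotientGroup.mk' N x • e, hB _ e he, SecMod.rep_conj hg x⟩
      have hF0 : F ≠ ⊥ := by
        intro h
        apply hB0
        rw [eq_bot_iff]
        intro e he
        obtain ⟨g, hg⟩ := s.exists_rep e
        have h1 : g ∈ F := ⟨e, he, hg⟩
        rw [h, Subgroup.mem_bot] at h1
        subst h1
        rw [AddSubgroup.mem_bot]
        exact SecMod.rep_unique hg s.rep_one
      obtain ⟨e, he, hge⟩ := hmono F hF hF0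
      rwa [SecMod.rep_unique he₀ hge]
  | succ i ih =>
    obtain ⟨E1, _, _, s1, hfin⟩ := ih
    obtain ⟨E2, _, _, ⟨s2⟩⟩ := XZ_sec N (i + 1)
    refine ⟨E2, _, _, s2, ?_⟩
    exact layer_finite u hG hmax N (XZ N i) (XZ N (i + 1)) (XZ N (i + 1 + 1)) (XZ_le N _)
      (fun x hx h => mem_XZ_succ.2 ⟨hx, h⟩) (fun x hx n hn => (mem_XZ_succ.1 hx).2 n hn) s1 s2

theorem XZ_finite (u : UI) (hG : u.Grp G) (hmax : MaxN G) (N : Subgroup G) [N.Normal]
    [Group.FG (G ⧸ N)] [Group.IsNilpotent (G ⧸ N)] (g₀ : G) (hg₀ : g₀ ≠ 1)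
    (hmono : ∀ M : Subgroup G, M.Normal → M ≠ ⊥ → g₀ ∈ M) (i : ℕ) :
    ((XZ N i : Subgroup G) : Set G).Finite := by
  induction i with
  | zero => rw [XZ_zero]; exact Set.finite_singleton 1
  | succ i ih =>
    obtain ⟨E, _, _, s, hfin⟩ := layers_finite u hG hmax N g₀ hg₀ hmono i
    have huniv : (s.π ⁻¹' (Set.univ : Set (Multiplicative E))).Finite := by
      refine Set.Finite.preimage' (Set.toFinite _) ?_
      rintro c _
      obtain ⟨y0, hy0⟩ := s.surj c
      refine Set.Finite.of_finite_image (f := Subtype.val)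
        ((ih.image (fun x => x * (y0 : G))).subset ?_) Subtype.val_injective.injOn
      rintro _ ⟨y, hy, rfl⟩
      have hy' : s.π y = c := hy
      refine ⟨y * (y0 : G)⁻¹, ?_, by simp⟩
      have h1 : s.π (y * y0⁻¹) = 1 := by rw [map_mul, map_inv, hy', hy0, mul_inv_cancel]
      exact (s.ker _).1 h1
    refine (huniv.image Subtype.val).subset ?_
    intro x hx
    exact ⟨⟨x, hx⟩, trivial, rfl⟩

end UZ

/-- finitely generated finite-by-nilpotent groups are residually finite -/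
theorem rf_of_finite_normal (G : Type) [Group G] [Group.FG G] (N : Subgroup G) [N.Normal]
    (hfin : Finite ↥N) [Group.IsNilpotent (G ⧸ N)] : Group.ResiduallyFinite G := by
  classical
  let f : G →* MulAut ↥N := MulAut.conjNormal
  let C : Subgroup G := f.ker
  have hC : ∀ c ∈ C, ∀ n ∈ N, c * n * c⁻¹ = n := by
    intro c hc n hn
    have h1 : f c = 1 := hc
    have h2 := congrArg (fun σ : MulAut ↥N => ((σ ⟨n, hn⟩ : ↥N) : G)) h1
    simpa [f] using h2
  have hfinA : Finite (MulAut ↥N) := by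
    have : Finite (Equiv.Perm ↥N) := inferInstance
    exact Finite.of_injective (fun σ : MulAut ↥N => (σ.toEquiv : Equiv.Perm ↥N))
      (fun a b h => MulEquiv.toEquiv_injective h)
  have hCfi : C.FiniteIndex := Subgroup.finiteIndex_ker f
  have hfgC : Group.FG ↥C := Subgroup.fg_of_index_ne_zero C
  have hnilC : Group.IsNilpotent ↥C := by
    refine Subgroup.isNilpotent_of_ker_le_center ((QuotientGroup.mk' N).comp C.subtype) ?_
    intro c hc
    rw [MonoidHom.mem_ker, MonoidHom.comp_apply] at hc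
    have hcN : (c : G) ∈ N := (QuotientGroup.eq_one_iff (c : G)).1 hc
    rw [Subgroup.mem_center_iff]
    intro d
    apply Subtype.ext
    have h1 := hC d d.2 c hcN
    show (d : G) * c = c * d
    rwa [mul_inv_eq_iff_eq_mul] at h1
  rw [Group.residuallyFinite_iff_exists_finiteIndex]
  intro g hg
  by_cases hgC : g ∈ C
  · obtain ⟨r, -, -, M, hM, hgM, hMf, -⟩ := Helper111.EN.resid (K := ↥C) ∅ (by simp) 2 Nat.prime_two
      (by simp) (by simp) ⟨g, hgC⟩ (fun h => hg (congrArg Subtype.val h))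
    refine ⟨M.map C.subtype, ⟨?_⟩, ?_⟩
    · rw [Subgroup.index_map_subtype]
      exact mul_ne_zero (Subgroup.index_ne_zero_of_finite) hCfi.index_ne_zero
    · rintro ⟨x, hx, hxg⟩
      apply hgM
      have : x = ⟨g, hgC⟩ := Subtype.ext hxg
      rwa [← this]
  · exact ⟨C, hCfi, hgC⟩

/-- monolithic case -/
theorem rf_mono (u : UI) (G : Type) [Group G] [Group.FG G] (hG : u.Grp G) (hmax : MaxN G)
    (m c : ℕ) (hc : Lw (Lw (⊤ : Subgroup G) m ⊤) c (Lw (⊤ : Subgroup G) m ⊤) = ⊥)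
    (g₀ : G) (hg₀ : g₀ ≠ 1) (hmono : ∀ M : Subgroup G, M.Normal → M ≠ ⊥ → g₀ ∈ M) :
    Group.ResiduallyFinite G := by
  let N : Subgroup G := Lw (⊤ : Subgroup G) m ⊤
  have hN : N.Normal := Lw_normal _ _ _
  have hfg : Group.FG (G ⧸ N) := QuotientGroup.fg _
  have hnil : Group.IsNilpotent (G ⧸ N) := by
    apply E_nilp m
    have h3 := map_Lw (QuotientGroup.mk' N) (⊤ : Subgroup G) m ⊤
    rw [Subgroup.map_top_of_surjective _ (QuotientGroup.mk'_surjective _)] at h3
    rw [← h3, eq_bot_iff]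
    rintro _ ⟨x, hx, rfl⟩
    rw [Subgroup.mem_bot, QuotientGroup.mk'_apply, QuotientGroup.eq_one_iff]
    exact hx
  have hNfin : (N : Set G).Finite := by
    have h1 := XZ_finite u hG hmax N g₀ hg₀ hmono c
    refine h1.subset ?_
    exact Lw_le_XZ N c hc c 0 (by omega)
  exact rf_of_finite_normal G N hNfin

/-- finitely generated groups with nilpotent lower central term -/
theorem rf_nn (u : UI) (G : Type) [Group G] [Group.FG G] (hG : u.Grp G) (hmax : MaxN G)
    (m c : ℕ) (hc : Lw (Lw (⊤ : Subgroup G) m ⊤) c (Lw (⊤ : Subgroup G) m ⊤) = ⊥) :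
    Group.ResiduallyFinite G := by
  rw [Group.residuallyFinite_iff_exists_finiteIndex]
  intro g hg
  obtain ⟨M, ⟨hM, hgM⟩, hMmax⟩ := hmax.exists_max (fun M => M.Normal ∧ g ∉ M) (fun M h => h.1)
    ⟨⊥, inferInstance, by rw [Subgroup.mem_bot]; exact hg⟩
  have hs := QuotientGroup.mk'_surjective M
  have hrf : Group.ResiduallyFinite (G ⧸ M) := by
    refine rf_mono u (G ⧸ M) (hG.of_surjective (QuotientGroup.mk' M) hs)
      (hmax.of_surjective (QuotientGroup.mk' M) hs) m c ?_ (QuotientGroup.mk' M g) ?_ ?_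
    · rw [← Subgroup.map_top_of_surjective _ hs, ← map_Lw, ← map_Lw, hc, Subgroup.map_bot]
    · intro h
      exact hgM ((QuotientGroup.eq_one_iff g).1 h)
    · intro L hL hL0
      by_contra hgL
      have h1 := hMmax (L.comap (QuotientGroup.mk' M)) ⟨hL.comap _, hgL⟩ (by
        intro x hx
        rw [Subgroup.mem_comap, QuotientGroup.mk'_apply, (QuotientGroup.eq_one_iff x).2 hx]
        exact L.one_mem)
      apply hL0
      rw [← Subgroup.map_comap_eq_self_of_surjective hs L, h1, eq_bot_iff]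
      rintro _ ⟨x, hx, rfl⟩
      rw [Subgroup.mem_bot]
      exact (QuotientGroup.eq_one_iff x).2 hx
  rw [Group.residuallyFinite_iff_exists_finiteIndex] at hrf
  obtain ⟨H, hH, hgH⟩ := hrf (QuotientGroup.mk' M g) (by
    intro h
    exact hgM ((QuotientGroup.eq_one_iff g).1 h))
  refine ⟨H.comap (QuotientGroup.mk' M), ⟨?_⟩, hgH⟩
  rw [Subgroup.index_comap_of_surjective _ hs]
  exact hH.index_ne_zero

/-- finitely generated soluble groups with a universal identity are residually finite -/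
theorem rf_main (u : UI) (d : ℕ) (G : Type) [Group G] [Group.FG G] (hG : u.Grp G)
    (hd : derivedSeries G d = ⊥) : Group.ResiduallyFinite G := by
  obtain ⟨G₁, h1, h2, m, c, h3⟩ := (U_main u d G hG hd).1
  have hfg : Group.FG ↥G₁ := Subgroup.fg_of_index_ne_zero G₁
  have hc : Lw (Lw (⊤ : Subgroup ↥G₁) m ⊤) c (Lw (⊤ : Subgroup ↥G₁) m ⊤) = ⊥ := by
    apply Subgroup.map_injective G₁.subtype_injective
    rw [map_Lw, E_map_mk, Subgroup.map_bot, h3]
  have hmax1 : MaxN ↥G₁ := U_B2core u ↥G₁ (hG.subgroup G₁) m c hc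
  have hrf : Group.ResiduallyFinite ↥G₁ := rf_nn u ↥G₁ (hG.subgroup G₁) hmax1 m c hc
  rw [Group.residuallyFinite_iff_exists_finiteIndex] at hrf ⊢
  intro g hg
  by_cases hgG : g ∈ G₁
  · obtain ⟨H, hH, hgH⟩ := hrf ⟨g, hgG⟩ (fun h => hg (congrArg Subtype.val h))
    refine ⟨H.map G₁.subtype, ⟨?_⟩, ?_⟩
    · rw [Subgroup.index_map_subtype]
      exact mul_ne_zero hH.index_ne_zero h2.index_ne_zero
    · rintro ⟨x, hx, hxg⟩
      apply hgH
      have : x = ⟨g, hgG⟩ := Subtype.ext hxg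
      rwa [← this]
  · exact ⟨G₁, h2, hgG⟩

/-- Mal'cev: finitely generated residually finite groups are Hopfian -/
theorem hopfian_of_rf (G : Type) [Group G] [hfg : Group.FG G] (hrf : Group.ResiduallyFinite G)
    (φ : G →* G) (hφ : Function.Surjective φ) : Function.Injective φ := by
  classical
  rw [injective_iff_map_eq_one]
  intro x hx
  by_contra hx1
  obtain ⟨H, hxH⟩ := Group.residuallyFinite_iff_exists_finiteIndexNormalSubgroup.1 hrf x hx1
  have hn : (H.toSubgroup).Normal := H.isNormal'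
  have hfi : (H.toSubgroup).FiniteIndex := H.isFiniteIndex'
  have hfin : Finite (G ⧸ H.toSubgroup) := Subgroup.finite_quotient_of_finiteIndex
  obtain ⟨S, hS⟩ := hfg.out
  have hHom : Finite (G →* G ⧸ H.toSubgroup) := by
    refine Finite.of_injective (fun (f : G →* G ⧸ H.toSubgroup) (s : S) => f s) ?_
    intro f g hfg'
    apply MonoidHom.eq_of_eqOn_dense hS
    intro s hs
    exact congrFun hfg' ⟨s, hs⟩
  have hinj : Function.Injective (fun f : G →* G ⧸ H.toSubgroup => f.comp φ) := by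
    intro f g h
    exact (MonoidHom.cancel_right hφ).1 h
  obtain ⟨ψ, hψ⟩ := (Finite.injective_iff_surjective.1 hinj) (QuotientGroup.mk' H.toSubgroup)
  have h1 : QuotientGroup.mk' H.toSubgroup x = 1 := by
    rw [← hψ]
    show ψ (φ x) = 1
    rw [hx, map_one]
  exact hxH ((QuotientGroup.eq_one_iff x).1 h1)

end Pool.Agent.Y45.HM
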