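import Pool.Agent.Y45.HM.GenFree
import Pool.Agent.Y45.HM.FinRing
import Pool.Agent.H53R2.Ev
import Pool.Agent.Helper294.HallC.SerExists

set_option autoImplicit false
set_option linter.unusedSectionVars false

namespace Pool.Agent.Y45.HM

open LaurentPolynomial H53R2 Helper294

theorem laurent_finiteType : Algebra.FiniteType ℤ ℤ[T;T⁻¹] := by
  show Algebra.FiniteType ℤ (AddMonoidAlgebra ℤ ℤ)
  infer_instance

/-- the divisibility argument -/
theorem dvd_pow_of_GF {J A : Type} [CommRing J] [AddCommGroup A] [Module J A]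
    {τ : J} (hGF : GF τ (⊥ : Submodule J A) ⊤) (hne : ∃ a : A, a ≠ 0)
    (hinj : ∀ f : J, f ≠ 0 → ∀ a : A, f • a = 0 → a = 0)
    (hsurj : ∀ f : J, f ≠ 0 → ∀ a : A, ∃ b : A, f • b = a) [IsDomain J] (hτ : τ ≠ 0) (f : J)
    (hf : f ≠ 0) : ∃ k : ℕ, f ∣ τ ^ k := by
  classical
  obtain ⟨B, -, h1, h2⟩ := hGF
  have hB : B.Nonempty := by
    by_contra hc
    rw [Set.not_nonempty_iff_eq_empty] at hc
    obtain ⟨a, ha⟩ := hne
    obtain ⟨k, l, hl, hk⟩ := h2 a trivial
    rw [hc, Set.subset_empty_iff, Finset.coe_eq_empty, Finsupp.support_eq_empty] at hl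
    rw [hl, lc, map_zero, sub_zero, Submodule.mem_bot] at hk
    exact ha (hinj _ (pow_ne_zero k hτ) a hk)
  obtain ⟨b, hb⟩ := hB
  obtain ⟨y, hy⟩ := hsurj f hf b
  obtain ⟨k, l, hl, hk⟩ := h2 y trivial
  rw [Submodule.mem_bot, sub_eq_zero] at hk
  refine ⟨k, l b, ?_⟩
  have h3 : Finsupp.single b (τ ^ k) - f • l = 0 := by
    apply h1
    · intro a ha
      rcases Finset.mem_union.1 (Finsupp.support_sub ha) with h | h
      · have := Finsupp.support_single_subset h
        rw [Finset.mem_singleton.1 this]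
        exact hb
      · exact hl (Finsupp.support_smul h)
    · rw [Submodule.mem_bot, lc, map_sub, map_smul, Finsupp.linearCombination_single]
      show τ ^ k • b - f • lc l = 0
      rw [← hk, ← hy, smul_comm f, sub_self]
  have h4 := congrArg (fun q => q b) h3
  simp only [Finsupp.coe_sub, Pi.sub_apply, Finsupp.single_eq_same, Finsupp.coe_smul,
    Pi.smul_apply, smul_eq_mul, Finsupp.coe_zero, Pi.zero_apply] at h4
  exact sub_eq_zero.1 h4

/-- P. Hall: central elements act periodically on simple modules of polycyclic groups. -/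
theorem simple_periodic {Γ E : Type} [Group Γ] [AddCommGroup E] [DistribMulAction Γ E]
    (hΓ : HallC.PC Γ) (hne : ∃ e : E, e ≠ 0)
    (hsimple : ∀ B : AddSubgroup E, (∀ g : Γ, ∀ x ∈ B, g • x ∈ B) → B = ⊥ ∨ B = ⊤)
    (z : Γ) (hz : ∀ (g : Γ) (e : E), z • g • e = g • z • e) :
    (∃ k : ℕ, 0 < k ∧ ∀ e : E, z ^ k • e = e) ∧ (∃ n : ℕ, 0 < n ∧ ∀ e : E, n • e = 0) := by
  classical
  let φ : ℤ[T;T⁻¹] →+* AddMonoid.End E := ev E z
  have hcomm : ∀ (f : ℤ[T;T⁻¹]) (g : Γ) (e : E), φ f (g • e) = g • φ f e :=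
    fun f g e => ev_commute z g (hz g) f e
  have hφi : ∀ f, φ f ≠ 0 → ∀ e, φ f e = 0 → e = 0 := by
    intro f hf e he
    rcases hsimple (φ f).ker (by
      intro g x hx
      exact (hcomm f g x).trans ((congrArg (fun y => g • y) hx).trans (smul_zero g))) with h | h
    · have : e ∈ (φ f).ker := he
      rw [h] at this
      exact this
    · exact absurd (by
        ext e
        have : e ∈ (φ f).ker := by rw [h]; trivial
        exact this) hf
  have hφs : ∀ f, φ f ≠ 0 → ∀ e, ∃ e', φ f e' = e := by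
    intro f hf e
    rcases hsimple (AddMonoidHom.range (φ f)) (by
      rintro g x ⟨y, rfl⟩
      exact ⟨g • y, hcomm f g y⟩) with h | h
    · exact absurd (by
        ext e
        have : φ f e ∈ AddMonoidHom.range (φ f) := ⟨e, rfl⟩
        rw [h] at this
        exact this) hf
    · have : e ∈ AddMonoidHom.range (φ f) := by rw [h]; trivial
      exact this
  let I : Ideal ℤ[T;T⁻¹] := RingHom.ker φ
  have hI : ∀ f, f ∈ I ↔ φ f = 0 := fun f => RingHom.mem_ker
  have hprime : I.IsPrime := by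
    refine ⟨?_, ?_⟩
    · intro h
      have h1 : (1 : ℤ[T;T⁻¹]) ∈ I := by rw [h]; trivial
      rw [hI, map_one] at h1
      obtain ⟨e, he⟩ := hne
      exact he (congrArg (fun q : AddMonoid.End E => q e) h1)
    · intro f g hfg
      by_contra hc
      push Not at hc
      rw [hI] at hfg
      rw [hI, hI] at hc
      apply hc.2
      ext e
      apply hφi f hc.1
      have := congrArg (fun q : AddMonoid.End E => q e) hfg
      simp only [map_mul] at this
      exact this
  let J := ℤ[T;T⁻¹] ⧸ I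
  have hdom : IsDomain J := Ideal.Quotient.isDomain I
  let φ' : J →+* AddMonoid.End E := Ideal.Quotient.lift I φ (fun a h => h)
  let _ : Module J E := Module.compHom E φ'
  have hsm : ∀ (f : ℤ[T;T⁻¹]) (e : E), (Ideal.Quotient.mk I f : J) • e = φ f e := fun f e => rfl
  have hJ0 : ∀ f : ℤ[T;T⁻¹], (Ideal.Quotient.mk I f : J) ≠ 0 → φ f ≠ 0 := by
    intro f hf h0
    exact hf (Ideal.Quotient.eq_zero_iff_mem.2 ((hI f).2 h0))
  have hsc : SMulCommClass Γ J E := by
    refine ⟨fun g j e => ?_⟩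
    obtain ⟨f, rfl⟩ := Ideal.Quotient.mk_surjective j
    rw [hsm, hsm, hcomm]
  have hft0 : Algebra.FiniteType ℤ ℤ[T;T⁻¹] := laurent_finiteType
  have hft1 : Algebra.FiniteType ℤ J :=
    Algebra.FiniteType.of_surjective ((Ideal.Quotient.mkₐ ℤ I)) Ideal.Quotient.mk_surjective
  have hft := ft_change J _ hft1
  have hnoe : IsNoetherianRing J := Algebra.FiniteType.isNoetherianRing ℤ J
  obtain ⟨s, hs⟩ := HallC.ser_exists hΓ
  obtain ⟨e0, he0⟩ := hne
  have hFGS : FGS (⊤ : Subgroup Γ) (⊥ : Submodule J E) ⊤ := by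
    refine ⟨{e0}, ?_⟩
    rw [bot_sup_eq]
    symm
    rcases hsimple (Submodule.span J {a : E | ∃ g ∈ (⊤ : Subgroup Γ), ∃ x ∈
      (({e0} : Finset E) : Set E), a = g • x}).toAddSubgroup (fun g x hx =>
        span_St (⊤ : Subgroup Γ) _ g trivial x hx) with h | h
    · exfalso
      have h1 : e0 ∈ (Submodule.span J {a : E | ∃ g ∈ (⊤ : Subgroup Γ), ∃ x ∈
          (({e0} : Finset E) : Set E), a = g • x}).toAddSubgroup :=
        Submodule.subset_span ⟨1, trivial, e0, by simp, by rw [one_smul]⟩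
      rw [h] at h1
      exact he0 h1
    · rw [eq_top_iff]
      intro x _
      have h1 : x ∈ (Submodule.span J {a : E | ∃ g ∈ (⊤ : Subgroup Γ), ∃ x ∈
          (({e0} : Finset E) : Set E), a = g • x}).toAddSubgroup := by rw [h]; trivial
      exact h1
  obtain ⟨τ, hτ, hGF⟩ := gen_free s (⊤ : Subgroup Γ) (hs ⊤) (⊥ : Submodule J E) ⊤
    (by
      intro g _ x hx
      rw [Submodule.mem_bot] at hx ⊢
      rw [hx, smul_zero]) hFGS
  have hfin : Finite J := by
    refine @finite_of_dvd_pow J _ _ hft τ hτ ?_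
    intro f hf
    refine dvd_pow_of_GF hGF ⟨e0, he0⟩ ?_ ?_ hτ f hf
    · intro j hj a ha
      obtain ⟨f, rfl⟩ := Ideal.Quotient.mk_surjective j
      exact hφi f (hJ0 f hj) a ha
    · intro j hj a
      obtain ⟨f, rfl⟩ := Ideal.Quotient.mk_surjective j
      exact hφs f (hJ0 f hj) a
  have hu : IsUnit (Ideal.Quotient.mk I (T 1) : J) := (isUnit_T (R := ℤ) 1).map _
  obtain ⟨u, hu⟩ := hu
  have hfu : Finite Jˣ := inferInstance
  obtain ⟨k, hk, hk1⟩ := isOfFinOrder_iff_pow_eq_one.1 (isOfFinOrder_of_finite u)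
  refine ⟨⟨k, hk, fun e => ?_⟩, ⟨Nat.card J, Nat.card_pos, fun e => ?_⟩⟩
  swap
  · have h1 : ((Nat.card J : ℕ) : J) = 0 := by
      have h0 : Nat.card J • (1 : J) = 0 := card_nsmul_eq_zero'
      rwa [nsmul_one] at h0
    rw [← Nat.cast_smul_eq_nsmul J, h1, zero_smul]
  have h1 : (Ideal.Quotient.mk I (T k) : J) = 1 := by
    have h2 : (Ideal.Quotient.mk I (T k) : J) = (u : J) ^ k := by
      rw [hu, ← map_pow, T_pow, mul_one]
    rw [h2, ← Units.val_pow_eq_pow_val, hk1, Units.val_one]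
  have h3 : (Ideal.Quotient.mk I (T k) : J) • e = e := by rw [h1, one_smul]
  rw [hsm] at h3
  have h4 : φ (T k) e = z ^ (k : ℤ) • e := ev_T z k e
  rw [h4, zpow_natCast] at h3
  exact h3

end Pool.Agent.Y45.HM
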