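import Pool.Agent.Y45.HM.RF
import Pool.Agent.H53R2.SFinal

set_option autoImplicit false
set_option linter.unusedSectionVars false

namespace Pool.Agent.Y45.HM

open H53R2
open scoped commutatorElement

/-- finitely generated normal subgroups: chain form -/
theorem maxN_of_fin {G : Type} [Group G]
    (h : ∀ N : Subgroup G, N.Normal → ∃ S : Finset G, N = Subgroup.normalClosure (S : Set G)) :
    MaxN G := by
  classical
  rw [K_maxN_iff]
  intro f hf hfn
  have hmem : ∀ y, y ∈ (⨆ n, f n) ↔ ∃ n, y ∈ f n := fun y =>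
    Subgroup.mem_iSup_of_directed hf.directed_le
  have hN : (⨆ n, f n).Normal := by
    refine ⟨fun x hx g => ?_⟩
    rw [hmem] at hx ⊢
    obtain ⟨n, hn⟩ := hx
    exact ⟨n, (hfn n).conj_mem x hn g⟩
  obtain ⟨S, hS⟩ := h _ hN
  have hSm : ∀ x : G, ∃ n, x ∈ S → x ∈ f n := by
    intro x
    by_cases hx : x ∈ S
    · have h1 : x ∈ (⨆ n, f n) := by
        rw [hS]; exact Subgroup.subset_normalClosure hx
      obtain ⟨n, hn⟩ := (hmem x).1 h1
      exact ⟨n, fun _ => hn⟩
    · exact ⟨0, fun h => absurd h hx⟩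
  choose n hn using hSm
  refine ⟨S.sup n, fun m hm => le_antisymm ?_ (hf hm)⟩
  refine (le_iSup f m).trans ?_
  rw [hS]
  have := hfn (S.sup n)
  apply Subgroup.normalClosure_le_normal
  intro x hx
  exact hf (Finset.le_sup (f := n) hx) (hn x hx)

/-- a universal identity from membership in the relatively free group of rank three -/
theorem exists_UI_of_mem (W : Set (FreeGroup ℕ))
    (hx : ⁅(RF.gen W 0 : RF W 3), RF.gen W 1⁆ ∈ Subgroup.normalClosure
      {y : RF W 3 | ∃ i : ℤ, i ≠ 0 ∧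
        y = ⁅(RF.gen W 0 : RF W 3), RF.gen W 2 ^ i * RF.gen W 1 * RF.gen W 2 ^ (-i)⁆}) :
    ∃ u : UI, ∀ (G : Type) [Group G], InVar W G → u.Grp G := by
  obtain ⟨n, g, s, e, hs, hx⟩ := mem_normalClosure_prod _ _ hx
  choose kk hkk using hs
  choose w hw using fun i => QuotientGroup.mk'_surjective (verb W 3) (g i)
  refine ⟨⟨n, w, kk, e, fun i => (hkk i).1⟩, ?_⟩
  intro G _ hG b' m' t'
  have h1 := congrArg (RF.lift hG ![b', m', t']) hx
  have gb : RF.lift hG ![b', m', t'] (RF.gen W 0) = b' := RF.lift_gen hG ![b', m', t'] 0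
  have gm : RF.lift hG ![b', m', t'] (RF.gen W 1) = m' := RF.lift_gen hG ![b', m', t'] 1
  have gt : RF.lift hG ![b', m', t'] (RF.gen W 2) = t' := RF.lift_gen hG ![b', m', t'] 2
  rw [map_commutatorElement, gb, gm, map_list_prod, List.map_ofFn] at h1
  rw [h1]
  congr 2
  funext i
  change RF.lift hG ![b', m', t'] (g i * s i ^ e i * (g i)⁻¹) = _
  rw [map_mul, map_mul, map_inv, map_zpow, (hkk i).2, map_commutatorElement, map_mul, map_mul,
    map_zpow, map_zpow, gb, gm, gt, ← hw i, RF.lift_mk]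

/-- a universal identity from the absence of twisted commutator configurations -/
theorem exists_UI_of_config (W : Set (FreeGroup ℕ))
    (h : ∀ (G : Type) [Group G], InVar W G → ∀ b m t : G,
      (∀ i : ℤ, i ≠ 0 → ⁅b, t ^ i * m * t ^ (-i)⁆ = 1) → ⁅b, m⁆ = 1) :
    ∃ u : UI, ∀ (G : Type) [Group G], InVar W G → u.Grp G := by
  apply exists_UI_of_mem
  set N := Subgroup.normalClosure {y : RF W 3 | ∃ i : ℤ, i ≠ 0 ∧
        y = ⁅(RF.gen W 0 : RF W 3), RF.gen W 2 ^ i * RF.gen W 1 * RF.gen W 2 ^ (-i)⁆} with hN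
  have h1 := h (RF W 3 ⧸ N) ((RF_inVar W 3).quot N) (QuotientGroup.mk' N (RF.gen W 0))
    (QuotientGroup.mk' N (RF.gen W 1)) (QuotientGroup.mk' N (RF.gen W 2)) (by
      intro i hi
      rw [← map_zpow, ← map_zpow, ← map_mul, ← map_mul, ← map_commutatorElement,
        QuotientGroup.mk'_apply, QuotientGroup.eq_one_iff]
      exact Subgroup.subset_normalClosure ⟨i, hi, rfl⟩)
  rw [← map_commutatorElement, QuotientGroup.mk'_apply, QuotientGroup.eq_one_iff] at h1
  exact h1

/-- the relatively free group of rank three and its quotients are generated by three elements -/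
theorem three_gen (W : Set (FreeGroup ℕ)) (N : Subgroup (RF W 3)) [N.Normal] :
    ∃ x y z : RF W 3 ⧸ N, Subgroup.closure {x, y, z} = ⊤ := by
  refine ⟨QuotientGroup.mk' N (RF.gen W 0), QuotientGroup.mk' N (RF.gen W 1),
    QuotientGroup.mk' N (RF.gen W 2), ?_⟩
  let φ : FreeGroup (Fin 3) →* RF W 3 ⧸ N :=
    (QuotientGroup.mk' N).comp (QuotientGroup.mk' (verb W 3))
  have hφ : Function.Surjective φ := (QuotientGroup.mk'_surjective N).comp
    (QuotientGroup.mk'_surjective (verb W 3))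
  rw [eq_top_iff, ← Subgroup.map_top_of_surjective φ hφ, ← FreeGroup.closure_range_of,
    MonoidHom.map_closure]
  apply Subgroup.closure_mono
  rintro _ ⟨_, ⟨i, rfl⟩, rfl⟩
  fin_cases i
  · exact Or.inl rfl
  · exact Or.inr (Or.inl rfl)
  · exact Or.inr (Or.inr rfl)

end Pool.Agent.Y45.HM
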